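import Pool.Agent.KIR.Defs

/-!
# KIR Base (helper2): Hilbert functions, the exact sequence of an element
-/
set_option autoImplicit false
namespace Pool.Agent.KIR
open MvPolynomial Filter Topology

namespace Base

/-- graded ideal for natural weights -/
def Gr {σ : Type} (w : σ → ℕ) (I : Ideal (S σ)) : Prop :=
  ∀ f ∈ I, ∀ a : ℕ, weightedHomogeneousComponent w a f ∈ I

/-- `S_a` -/
noncomputable abbrev Sa {σ : Type} (w : σ → ℕ) (a : ℕ) : Submodule ℂ (S σ) :=
  weightedHomogeneousSubmodule ℂ w a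

section lin

variable {E F : Type*} [AddCommGroup E] [Module ℂ E] [AddCommGroup F] [Module ℂ F]

/-- rank-nullity for a subspace -/
theorem rn (φ : E →ₗ[ℂ] F) (V : Submodule ℂ E) [FiniteDimensional ℂ V] :
    Module.finrank ℂ (V.map φ) + Module.finrank ℂ (V ⊓ LinearMap.ker φ : Submodule ℂ E) =
      Module.finrank ℂ V := by
  have h := (φ.domRestrict V).finrank_range_add_finrank_ker
  have h1 : LinearMap.range (φ.domRestrict V) = V.map φ := LinearMap.range_domRestrict V φ
  have h2 : Module.finrank ℂ (LinearMap.ker (φ.domRestrict V)) =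
      Module.finrank ℂ (V ⊓ LinearMap.ker φ : Submodule ℂ E) := by
    have h3 : (LinearMap.ker (φ.domRestrict V)).map V.subtype = V ⊓ LinearMap.ker φ := by
      ext x
      constructor
      · rintro ⟨y, hy, rfl⟩
        exact ⟨y.2, hy⟩
      · rintro ⟨hx, hx'⟩
        exact ⟨⟨x, hx⟩, hx', rfl⟩
    rw [← h3]
    exact (Submodule.equivMapOfInjective V.subtype V.injective_subtype _).finrank_eq
  rw [h1, h2] at h
  exact h

end lin

variable {σ : Type}

/-- the quotient map -/
noncomputable abbrev mkl (I : Ideal (S σ)) : S σ →ₗ[ℂ] S σ ⧸ I := (Ideal.Quotient.mkₐ ℂ I).toLinearMap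

theorem mkl_eq_zero (I : Ideal (S σ)) (f : S σ) : mkl I f = 0 ↔ f ∈ I :=
  Ideal.Quotient.eq_zero_iff_mem

theorem fd [Fintype σ] (w : σ → ℕ) (hw : ∀ s, 0 < w s) (a : ℕ) : FiniteDimensional ℂ (Sa w a) :=
  Module.Finite.iff_fg.2 (weightedHomogeneousSubmodule_fg ℂ w (fun s => (hw s).ne') a)

/-- the part of `I` in degree `a` -/
noncomputable def Ia (w : σ → ℕ) (I : Ideal (S σ)) (a : ℕ) : Submodule ℂ (S σ) :=
  Sa w a ⊓ LinearMap.ker (mkl I)

theorem mem_Ia (w : σ → ℕ) (I : Ideal (S σ)) (a : ℕ) (f : S σ) :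
    f ∈ Ia w I a ↔ f ∈ Sa w a ∧ f ∈ I := by
  unfold Ia
  rw [Submodule.mem_inf, LinearMap.mem_ker, mkl_eq_zero]

theorem hf_eq [Fintype σ] (w : σ → ℕ) (hw : ∀ s, 0 < w s) (I : Ideal (S σ)) (a : ℕ) :
    hf w I a + Module.finrank ℂ (Ia w I a) = Module.finrank ℂ (Sa w a) := by
  have := fd w hw a
  exact rn (mkl I) (Sa w a)

theorem Ia_fd [Fintype σ] (w : σ → ℕ) (hw : ∀ s, 0 < w s) (I : Ideal (S σ)) (a : ℕ) :
    FiniteDimensional ℂ (Ia w I a) := by
  have := fd w hw a
  exact Submodule.finiteDimensional_of_le (inf_le_left)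

theorem hf_mono [Fintype σ] (w : σ → ℕ) (hw : ∀ s, 0 < w s) {I J : Ideal (S σ)} (h : I ≤ J)
    (a : ℕ) : hf w J a ≤ hf w I a := by
  have h1 := hf_eq w hw I a
  have h2 := hf_eq w hw J a
  have := Ia_fd w hw J a
  have h3 : Module.finrank ℂ (Ia w I a) ≤ Module.finrank ℂ (Ia w J a) := by
    refine Submodule.finrank_mono fun f hf => ?_
    rw [mem_Ia] at hf ⊢
    exact ⟨hf.1, h hf.2⟩
  omega

theorem hf_le [Fintype σ] (w : σ → ℕ) (hw : ∀ s, 0 < w s) (I : Ideal (S σ)) (a : ℕ) :
    hf w I a ≤ Module.finrank ℂ (Sa w a) := by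
  have h1 := hf_eq w hw I a
  omega

theorem comp_sum (w : σ → ℕ) (f : S σ) :
    f = ∑ b ∈ (weightedHomogeneousComponent_finsupp (w := w) f).toFinset,
      weightedHomogeneousComponent w b f := by
  rw [← finsum_eq_sum _ (weightedHomogeneousComponent_finsupp (w := w) f)]
  exact (finsum_weightedHomogeneousComponent w f).symm

/-- a graded ideal of the same Hilbert function that contains another one is equal to it -/
theorem eq_of_hf [Fintype σ] (w : σ → ℕ) (hw : ∀ s, 0 < w s) {I J : Ideal (S σ)} (h : I ≤ J)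
    (hJ : Gr w J) (he : ∀ a, hf w I a ≤ hf w J a) : I = J := by
  classical
  refine le_antisymm h fun f hf => ?_
  have h1 : ∀ a, weightedHomogeneousComponent w a f ∈ I := by
    intro a
    have h2 := hf_eq w hw I a
    have h3 := hf_eq w hw J a
    have := Ia_fd w hw J a
    have h5 : Ia w I a ≤ Ia w J a := by
      intro g hg
      rw [mem_Ia] at hg ⊢
      exact ⟨hg.1, h hg.2⟩
    have h6 : Ia w I a = Ia w J a := by
      refine Submodule.eq_of_le_of_finrank_le h5 ?_
      have := he a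
      omega
    have h7 : weightedHomogeneousComponent w a f ∈ Ia w J a := by
      rw [mem_Ia]
      exact ⟨weightedHomogeneousComponent_mem w f a, hJ f hf a⟩
    rw [← h6, mem_Ia] at h7
    exact h7.2
  rw [comp_sum w f]
  exact Ideal.sum_mem _ fun a _ => h1 a

/-- components of a product with a homogeneous element -/
theorem comp_mul (w : σ → ℕ) (f g : S σ) (e a : ℕ) (hf : IsWeightedHomogeneous w f e) :
    weightedHomogeneousComponent w a (g * f) =
      if e ≤ a then weightedHomogeneousComponent w (a - e) g * f else 0 := by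
  classical
  have h1 : ∀ b : ℕ, weightedHomogeneousComponent w a (weightedHomogeneousComponent w b g * f) =
      if b + e = a then weightedHomogeneousComponent w b g * f else 0 := by
    intro b
    have h2 : IsWeightedHomogeneous w (weightedHomogeneousComponent w b g * f) (b + e) :=
      (weightedHomogeneousComponent_isWeightedHomogeneous b g).mul hf
    by_cases h : b + e = a
    · rw [if_pos h, ← h]
      exact weightedHomogeneousComponent_eq_self h2
    · rw [if_neg h]
      exact h2.weightedHomogeneousComponent_ne a fun h' => h h'.symm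
  have h3 : (Function.support fun b => weightedHomogeneousComponent w b g).Finite :=
    weightedHomogeneousComponent_finsupp g
  have h4 : g = ∑ b ∈ h3.toFinset, weightedHomogeneousComponent w b g := by
    rw [← finsum_eq_sum _ h3]
    exact (finsum_weightedHomogeneousComponent w g).symm
  have h5 : weightedHomogeneousComponent w a (g * f) =
      ∑ b ∈ h3.toFinset, if b + e = a then weightedHomogeneousComponent w b g * f else 0 := by
    conv_lhs => rw [h4]
    rw [Finset.sum_mul, map_sum]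
    exact Finset.sum_congr rfl fun b _ => h1 b
  rw [h5]
  by_cases h : e ≤ a
  · rw [if_pos h, Finset.sum_eq_single (a - e)]
    · rw [if_pos (by omega)]
    · intro b _ hb
      rw [if_neg (by omega)]
    · intro hb
      rw [if_pos (by omega)]
      rw [Set.Finite.mem_toFinset, Function.mem_support, not_not] at hb
      rw [hb, zero_mul]
  · rw [if_neg h]
    refine Finset.sum_eq_zero fun b _ => if_neg (by omega)

/-- the graded pieces of `I + (f)` -/
theorem mem_sup_comp (w : σ → ℕ) {I : Ideal (S σ)} (hI : Gr w I) {f : S σ} {e : ℕ}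
    (hf : IsWeightedHomogeneous w f e) {h : S σ} (hh : h ∈ I ⊔ Ideal.span {f}) (a : ℕ) :
    ∃ i ∈ I, ∃ g, i ∈ Sa w a ∧ (e ≤ a → g ∈ Sa w (a - e)) ∧ (¬ e ≤ a → g = 0) ∧
      weightedHomogeneousComponent w a h = i + g * f := by
  obtain ⟨i, hi, j, hj, rfl⟩ := Submodule.mem_sup.1 hh
  obtain ⟨g, rfl⟩ := Ideal.mem_span_singleton'.1 hj
  refine ⟨weightedHomogeneousComponent w a i, hI i hi a,
    if e ≤ a then weightedHomogeneousComponent w (a - e) g else 0,
    weightedHomogeneousComponent_mem w i a, ?_, ?_, ?_⟩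
  · intro h
    rw [if_pos h]
    exact weightedHomogeneousComponent_mem w g (a - e)
  · intro h
    rw [if_neg h]
  · rw [map_add, comp_mul w f g e a hf]
    split_ifs
    · rfl
    · rw [zero_mul]

theorem gr_sup (w : σ → ℕ) {I : Ideal (S σ)} (hI : Gr w I) {f : S σ} {e : ℕ}
    (hf : IsWeightedHomogeneous w f e) : Gr w (I ⊔ Ideal.span {f}) := by
  intro h hh a
  obtain ⟨i, hi, g, _, _, _, h4⟩ := mem_sup_comp w hI hf hh a
  rw [h4]
  exact Ideal.add_mem _ (Ideal.mem_sup_left hi)
    (Ideal.mem_sup_right (Ideal.mul_mem_left _ _ (Ideal.mem_span_singleton_self f)))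

theorem mem_colon {I : Ideal (S σ)} {f g : S σ} : g ∈ I.colon {f} ↔ g * f ∈ I := by
  rw [Submodule.mem_colon_singleton, smul_eq_mul]

theorem gr_colon (w : σ → ℕ) {I : Ideal (S σ)} (hI : Gr w I) {f : S σ} {e : ℕ}
    (hf : IsWeightedHomogeneous w f e) : Gr w (I.colon {f}) := by
  intro g hg a
  rw [mem_colon] at hg ⊢
  have h1 := hI _ hg (a + e)
  rw [comp_mul w f g e (a + e) hf, if_pos (Nat.le_add_left _ _), Nat.add_sub_cancel] at h1
  exact h1

/-- **the exact sequence** -/
theorem hf_ex [Fintype σ] (w : σ → ℕ) (hw : ∀ s, 0 < w s) {I : Ideal (S σ)} (hI : Gr w I)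
    {f : S σ} {e : ℕ} (hfh : IsWeightedHomogeneous w f e) (a : ℕ) :
    hf w I a = hf w (I ⊔ Ideal.span {f}) a +
      if e ≤ a then hf w (I.colon {f}) (a - e) else 0 := by
  obtain ⟨J, hJ⟩ : ∃ J, J = I ⊔ Ideal.span {f} := ⟨_, rfl⟩
  rw [← hJ]
  have hIJ : I ≤ J := hJ ▸ le_sup_left
  have e1 := hf_eq w hw I a
  have e2 := hf_eq w hw J a
  have := Ia_fd w hw J a
  have e3 := rn (mkl I) (Ia w J a)
  have e4 : Ia w J a ⊓ LinearMap.ker (mkl I) = Ia w I a := by
    ext g
    rw [Submodule.mem_inf, mem_Ia, mem_Ia, LinearMap.mem_ker, mkl_eq_zero]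
    exact ⟨fun h => ⟨h.1.1, h.2⟩, fun h => ⟨⟨h.1, hIJ h.2⟩, h.2⟩⟩
  rw [e4] at e3
  have e5 : Module.finrank ℂ ((Ia w J a).map (mkl I)) =
      if e ≤ a then hf w (I.colon {f}) (a - e) else 0 := by
    by_cases hea : e ≤ a
    · rw [if_pos hea]
      obtain ⟨μ, hμ⟩ : ∃ μ : S σ →ₗ[ℂ] S σ ⧸ I, μ = (mkl I).comp (LinearMap.mulRight ℂ f) :=
        ⟨_, rfl⟩
      have hμ' : ∀ g, μ g = mkl I (g * f) := by
        intro g
        rw [hμ]
        rfl
      have e6 : (Ia w J a).map (mkl I) = (Sa w (a - e)).map μ := by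
        ext y
        constructor
        · rintro ⟨h, hh, rfl⟩
          have hh' := (mem_Ia w J a h).1 hh
          rw [hJ] at hh'
          obtain ⟨i, hi, g, _, h2, _, h4⟩ := mem_sup_comp w hI hfh hh'.2 a
          rw [weightedHomogeneousComponent_eq_self hh'.1] at h4
          refine ⟨g, h2 hea, ?_⟩
          rw [hμ', h4, map_add, (mkl_eq_zero I i).2 hi, zero_add]
        · rintro ⟨g, hg, rfl⟩
          refine ⟨g * f, ?_, (hμ' g).symm⟩
          refine (mem_Ia w J a _).2 ⟨?_, ?_⟩
          · have := IsWeightedHomogeneous.mul hg hfh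
            rw [Nat.sub_add_cancel hea] at this
            exact this
          · rw [hJ]
            exact Ideal.mem_sup_right (Ideal.mul_mem_left _ _ (Ideal.mem_span_singleton_self f))
      have e7 : LinearMap.ker μ = LinearMap.ker (mkl (I.colon {f})) := by
        ext g
        rw [LinearMap.mem_ker, LinearMap.mem_ker, hμ', mkl_eq_zero, mkl_eq_zero, mem_colon]
      have := fd w hw (a - e)
      have e8 := rn μ (Sa w (a - e))
      have e9 := hf_eq w hw (I.colon {f}) (a - e)
      rw [e7] at e8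
      rw [e6]
      have e10 : Ia w (I.colon {f}) (a - e) = Sa w (a - e) ⊓ LinearMap.ker (mkl (I.colon {f})) := rfl
      rw [e10] at e9
      omega
    · rw [if_neg hea]
      have e6 : (Ia w J a).map (mkl I) = ⊥ := by
        rw [eq_bot_iff]
        rintro y ⟨h, hh, rfl⟩
        have hh' := (mem_Ia w J a h).1 hh
        rw [hJ] at hh'
        obtain ⟨i, hi, g, _, _, h3, h4⟩ := mem_sup_comp w hI hfh hh'.2 a
        rw [weightedHomogeneousComponent_eq_self hh'.1, h3 hea, zero_mul, add_zero] at h4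
        rw [Submodule.mem_bot, h4, mkl_eq_zero]
        exact hi
      rw [e6, finrank_bot]
  omega

/-! ### Hilbert series -/

theorem finrank_Sa_le [Fintype σ] [DecidableEq σ] (w : σ → ℕ) (hw : ∀ s, 0 < w s) (a : ℕ) :
    Module.finrank ℂ (Sa w a) ≤ (a + 1) ^ Fintype.card σ := by
  classical
  obtain ⟨T, hT⟩ : ∃ T : Finset (S σ), T = (Fintype.piFinset fun _ : σ => Finset.range (a + 1)).image
      fun m => monomial (Finsupp.equivFunOnFinite.symm m) (1 : ℂ) := ⟨_, rfl⟩
  have h1 : Sa w a ≤ Submodule.span ℂ (T : Set (S σ)) := by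
    intro f hf
    rw [f.as_sum]
    refine Submodule.sum_mem _ fun d hd => ?_
    have h2 : monomial d (coeff d f) = coeff d f • monomial d (1 : ℂ) := by
      rw [smul_monomial, smul_eq_mul, mul_one]
    rw [h2]
    refine Submodule.smul_mem _ _ (Submodule.subset_span ?_)
    rw [hT, Finset.mem_coe, Finset.mem_image]
    refine ⟨d, ?_, ?_⟩
    · rw [Fintype.mem_piFinset]
      intro s
      have h3 : Finsupp.weight w d = a := hf (mem_support_iff.1 hd)
      have h4 := Finsupp.le_weight w (hw s).ne' d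
      rw [Finset.mem_range]
      omega
    · rw [Finsupp.equivFunOnFinite_symm_coe]
  have h6 : T.card ≤ (Fintype.piFinset fun _ : σ => Finset.range (a + 1)).card := by
    rw [hT]
    exact Finset.card_image_le
  have h7 : (Fintype.piFinset fun _ : σ => Finset.range (a + 1)).card = (a + 1) ^ Fintype.card σ := by
    rw [Fintype.card_piFinset, Finset.prod_const, Finset.card_range, Finset.card_univ]
  have h5 : T.card ≤ (a + 1) ^ Fintype.card σ := h7 ▸ h6
  exact (Submodule.finrank_mono h1).trans ((finrank_span_finset_le_card T).trans h5)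

theorem summ [Fintype σ] [DecidableEq σ] (w : σ → ℕ) (hw : ∀ s, 0 < w s) (I : Ideal (S σ)) {q : ℝ}
    (hq0 : 0 ≤ q) (hq1 : q < 1) : Summable fun a : ℕ => (hf w I a : ℝ) * q ^ a := by
  have hfr : ∀ a : ℕ, hf w I a ≤ (a + 1) ^ Fintype.card σ := fun a =>
    (hf_le w hw I a).trans (finrank_Sa_le w hw a)
  obtain ⟨N, hN⟩ : ∃ N : ℕ, N = Fintype.card σ := ⟨_, rfl⟩
  rw [← hN] at hfr
  have hqn : ‖q‖ < 1 := by rw [Real.norm_eq_abs, abs_of_nonneg hq0]; exact hq1
  have h0 : Summable fun a : ℕ => ((a : ℝ) ^ N * q ^ a) :=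
    summable_pow_mul_geometric_of_norm_lt_one N hqn
  have h1 : Summable fun a : ℕ => ((a : ℝ) ^ N * q ^ a) * 2 ^ N := h0.mul_right _
  have h2 : Summable fun a : ℕ => (1 : ℝ) * q ^ a := by
    simpa using summable_geometric_of_lt_one hq0 hq1
  refine Summable.of_nonneg_of_le (fun a => by positivity) (fun a => ?_) (h1.add h2)
  have h3 : (hf w I a : ℝ) ≤ ((a : ℝ) + 1) ^ N := by
    exact_mod_cast hfr a
  have h4 : ((a : ℝ) + 1) ^ N ≤ (a : ℝ) ^ N * 2 ^ N + 1 := by
    rcases Nat.eq_zero_or_pos a with h | h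
    · rw [h, Nat.cast_zero, zero_add, one_pow]
      have : (0 : ℝ) ≤ 0 ^ N * 2 ^ N := by positivity
      linarith
    · have h5 : (a : ℝ) + 1 ≤ a * 2 := by
        have : (1 : ℝ) ≤ a := by exact_mod_cast h
        linarith
      rw [← mul_pow]
      have := pow_le_pow_left₀ (by positivity) h5 (N)
      linarith
  have h6 : (0 : ℝ) ≤ q ^ a := by positivity
  calc (hf w I a : ℝ) * q ^ a ≤ ((a : ℝ) ^ N * 2 ^ N + 1) * q ^ a :=
        mul_le_mul_of_nonneg_right (h3.trans h4) h6
    _ = _ := by ring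

theorem Hs_nonneg (w : σ → ℕ) (I : Ideal (S σ)) {q : ℝ} (hq0 : 0 ≤ q) : 0 ≤ Hs w I q :=
  tsum_nonneg fun a => by positivity

theorem Hs_mono [Fintype σ] [DecidableEq σ] (w : σ → ℕ) (hw : ∀ s, 0 < w s) {I J : Ideal (S σ)}
    (h : I ≤ J) {q : ℝ} (hq0 : 0 ≤ q) (hq1 : q < 1) : Hs w J q ≤ Hs w I q := by
  refine (summ w hw J hq0 hq1).tsum_le_tsum (fun a => ?_) (summ w hw I hq0 hq1)
  have h6 : (0 : ℝ) ≤ q ^ a := by positivity
  exact mul_le_mul_of_nonneg_right (by exact_mod_cast hf_mono w hw h a) h6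

/-- **the exact sequence for Hilbert series** -/
theorem Hs_ex [Fintype σ] [DecidableEq σ] (w : σ → ℕ) (hw : ∀ s, 0 < w s) {I : Ideal (S σ)}
    (hI : Gr w I) {f : S σ} {e : ℕ} (hfh : IsWeightedHomogeneous w f e) {q : ℝ} (hq0 : 0 ≤ q)
    (hq1 : q < 1) :
    Hs w I q = Hs w (I ⊔ Ideal.span {f}) q + q ^ e * Hs w (I.colon {f}) q := by
  have s1 := summ w hw (I ⊔ Ideal.span {f}) hq0 hq1
  have s2 := summ w hw (I.colon {f}) hq0 hq1
  obtain ⟨g, hg⟩ : ∃ g : ℕ → ℝ, g = fun a => if e ≤ a then
    (hf w (I.colon {f}) (a - e) : ℝ) * q ^ a else 0 := ⟨_, rfl⟩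
  have h1 : ∀ b, g (b + e) = q ^ e * ((hf w (I.colon {f}) b : ℝ) * q ^ b) := by
    intro b
    rw [hg]
    show (if e ≤ b + e then (hf w (I.colon {f}) (b + e - e) : ℝ) * q ^ (b + e) else 0) = _
    rw [if_pos (Nat.le_add_left _ _), Nat.add_sub_cancel, pow_add]
    ring
  have h2 : Summable g := by
    rw [← summable_nat_add_iff e]
    refine (s2.mul_left (q ^ e)).congr fun b => ?_
    rw [h1]
  have h3 : ∑' a, g a = q ^ e * Hs w (I.colon {f}) q := by
    rw [← h2.sum_add_tsum_nat_add e, Finset.sum_eq_zero, zero_add]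
    · unfold Hs
      rw [← tsum_mul_left]
      exact tsum_congr h1
    · intro a ha
      rw [hg]
      show (if e ≤ a then (hf w (I.colon {f}) (a - e) : ℝ) * q ^ a else 0) = 0
      rw [if_neg (by have := Finset.mem_range.1 ha; omega)]
  rw [← h3]
  unfold Hs
  rw [← s1.tsum_add h2]
  refine tsum_congr fun a => ?_
  rw [hf_ex w hw hI hfh a, hg]
  show ((hf w (I ⊔ Ideal.span {f}) a + if e ≤ a then hf w (I.colon {f}) (a - e) else 0 : ℕ) : ℝ) * q ^ a =
    (hf w (I ⊔ Ideal.span {f}) a : ℝ) * q ^ a +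
      if e ≤ a then (hf w (I.colon {f}) (a - e) : ℝ) * q ^ a else 0
  split_ifs
  · push_cast
    ring
  · push_cast
    ring

/-! ### torus weights -/

variable {ρ : Type}

theorem wt_pos [Fintype ρ] (W : σ → (ρ → ℤ)) (p : ρ → ℤ) (hp : Pos W p) (s : σ) : 0 < wt W p s := by
  have := hp s
  unfold wt
  omega

theorem wt_cast [Fintype ρ] (W : σ → (ρ → ℤ)) (p : ρ → ℤ) (hp : Pos W p) (s : σ) :
    ((wt W p s : ℕ) : ℤ) = pair (W s) p := by
  have := hp s
  unfold wt
  omega

theorem pair_add [Fintype ρ] (α β p : ρ → ℤ) : pair (α + β) p = pair α p + pair β p := by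
  unfold pair
  rw [← Finset.sum_add_distrib]
  exact Finset.sum_congr rfl fun i _ => by rw [Pi.add_apply, add_mul]

theorem pair_smul [Fintype ρ] (n : ℕ) (β p : ρ → ℤ) : pair (n • β) p = n * pair β p := by
  unfold pair
  rw [Finset.mul_sum]
  exact Finset.sum_congr rfl fun i _ => by rw [Pi.smul_apply, nsmul_eq_mul, mul_assoc]

theorem pair_zero [Fintype ρ] (p : ρ → ℤ) : pair 0 p = 0 := by
  unfold pair
  simp

/-- the natural weight of a monomial -/
theorem weight_wt [Fintype ρ] (W : σ → (ρ → ℤ)) (p : ρ → ℤ) (hp : Pos W p) (m : σ →₀ ℕ) :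
    ((Finsupp.weight (wt W p) m : ℕ) : ℤ) = pair (Finsupp.weight W m) p := by
  induction m using Finsupp.induction_linear with
  | zero => rw [map_zero, map_zero, pair_zero]; rfl
  | add a b ha hb => rw [map_add, map_add, pair_add, ← ha, ← hb]; push_cast; rfl
  | single s n =>
    rw [Finsupp.weight_single, Finsupp.weight_single, pair_smul, ← wt_cast W p hp, smul_eq_mul,
      Nat.cast_mul]

/-- torus homogeneous elements are homogeneous for the natural weights -/
theorem hom_wt [Fintype ρ] (W : σ → (ρ → ℤ)) (p : ρ → ℤ) (hp : Pos W p) {f : S σ} {d : ρ → ℤ}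
    (hf : IsWeightedHomogeneous W f d) : IsWeightedHomogeneous (wt W p) f (pair d p).toNat := by
  intro m hm
  have h1 := hf hm
  have h2 := weight_wt W p hp m
  rw [h1] at h2
  omega

theorem TG_Gr [Fintype ρ] (W : σ → (ρ → ℤ)) (p : ρ → ℤ) (hp : Pos W p) {I : Ideal (S σ)}
    (hI : TG W I) : Gr (wt W p) I := by
  classical
  intro f hf a
  have h1 : weightedHomogeneousComponent (wt W p) a f =
      ∑ d ∈ (weightedHomogeneousComponent_finsupp (w := W) f).toFinset,
        if pair d p = a then weightedHomogeneousComponent W d f else 0 := by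
    have h2 : f = ∑ d ∈ (weightedHomogeneousComponent_finsupp (w := W) f).toFinset,
        weightedHomogeneousComponent W d f := by
      rw [← finsum_eq_sum _ (weightedHomogeneousComponent_finsupp (w := W) f)]
      exact (finsum_weightedHomogeneousComponent W f).symm
    conv_lhs => rw [h2]
    rw [map_sum]
    refine Finset.sum_congr rfl fun d _ => ?_
    have h3 := hom_wt W p hp (weightedHomogeneousComponent_isWeightedHomogeneous d f)
    by_cases h0 : weightedHomogeneousComponent W d f = 0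
    · rw [h0, map_zero, ite_self]
    · obtain ⟨m, hm⟩ : ∃ m, coeff m (weightedHomogeneousComponent W d f) ≠ 0 := by
        by_contra h
        push Not at h
        exact h0 (MvPolynomial.ext _ _ fun m => by rw [h m, coeff_zero])
      have h4 := weight_wt W p hp m
      rw [(weightedHomogeneousComponent_isWeightedHomogeneous d f) hm] at h4
      by_cases h5 : pair d p = a
      · rw [if_pos h5]
        have h6 : (pair d p).toNat = a := by omega
        rw [h6] at h3
        exact weightedHomogeneousComponent_eq_self h3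
      · rw [if_neg h5]
        exact h3.weightedHomogeneousComponent_ne a (by omega)
  rw [h1]
  refine Ideal.sum_mem _ fun d _ => ?_
  split_ifs
  · exact hI f hf d
  · exact I.zero_mem

end Base

end Pool.Agent.KIR
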