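import Pool.Agent.KIR.Geo
set_option autoImplicit false
set_option linter.all false
namespace Pool.Agent.KIR
open MvPolynomial Filter Topology

/-! ## commutation of column and row operations -/

lemma sub_X {σ : Type} (g : σ → Option σ) (t : ℂ) (s : σ) :
    sub g t (X s) = X s + C t * ((g s).elim 0 (fun s' => X s')) := by
  simp [sub]

lemma flat_cg {n m : ℕ} {a b : Fin m} (h : a ≠ b) : Flat (cg (n := n) a b) := by
  intro s s' hs
  unfold cg at hs ⊢
  split_ifs at hs with h1
  obtain rfl := Option.some.inj hs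
  simp [h]

lemma flat_rg {n m : ℕ} {a b : Fin n} (h : a ≠ b) : Flat (rg (m := m) a b) := by
  intro s s' hs
  unfold rg at hs ⊢
  split_ifs at hs with h1
  obtain rfl := Option.some.inj hs
  simp [h.symm]

/-- the trivial operation -/
def nog {σ : Type} : σ → Option σ := fun _ => none

lemma flat_nog {σ : Type} : Flat (nog (σ := σ)) := by intro s s' h; simp [nog] at h

lemma sub_nog {σ : Type} (t : ℂ) : sub (nog (σ := σ)) t = AlgHom.id ℂ _ := by
  apply MvPolynomial.algHom_ext
  intro s
  simp [sub_X, nog]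

lemma stab_nog (hPOLY : S_POLY) {σ : Type} [Fintype σ] [DecidableEq σ] (I : Ideal (S σ)) :
    Stab nog I := by
  rw [hPOLY]
  intro t f hf
  rw [sub_nog]
  exact hf

/-- rows commute with columns -/
lemma nrm_row {n m : ℕ} (a b : Fin m) (c d : Fin n) :
    NormRel (cg (n := n) a b) (rg (m := m) c d) nog 0 := by
  intro t r
  rw [sub_nog, AlgHom.id_comp]
  apply MvPolynomial.algHom_ext
  rintro ⟨i, j⟩
  simp only [AlgHom.comp_apply, sub_X, map_add, map_mul, algHom_C]
  by_cases h1 : i = c <;> by_cases h2 : j = b <;>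
    simp [cg, rg, h1, h2, sub_X, map_add, map_mul] <;> ring_nf

/-- columns -/
lemma nrm_col0 {n m : ℕ} (a b c d : Fin m) (h1 : d ≠ a) (h2 : c ≠ b) :
    NormRel (cg (n := n) a b) (cg (n := n) c d) nog 0 := by
  intro t r
  rw [sub_nog, AlgHom.id_comp]
  apply MvPolynomial.algHom_ext
  rintro ⟨i, j⟩
  simp only [AlgHom.comp_apply, sub_X, map_add, map_mul, algHom_C]
  by_cases h3 : j = d <;> by_cases h4 : j = b <;>
    simp [cg, h3, h4, sub_X, map_add, map_mul, h1, h2, Ne.symm h1, Ne.symm h2]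
  · subst h3; subst h4; simp [h1, h2, Ne.symm h1, Ne.symm h2, sub_X, cg]; ring
  · have : ¬ d = b := fun h => h4 (h3.trans h)
    simp [this, sub_X, cg, h2]
  · have : ¬ b = d := fun h => h3 (h4.trans h)
    simp [this, sub_X, cg, Ne.symm h1]

/-- columns, `d = a`: first `c → a`, then `a → b` -/
lemma nrm_col1 {n m : ℕ} (a b c : Fin m) (h1 : a ≠ b) (h2 : c ≠ b) (h3 : c ≠ a) :
    NormRel (cg (n := n) a b) (cg (n := n) c a) (cg (n := n) c b) (-1) := by
  intro t r
  apply MvPolynomial.algHom_ext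
  rintro ⟨i, j⟩
  simp only [AlgHom.comp_apply, sub_X, map_add, map_mul, algHom_C]
  by_cases h4 : j = a
  · subst h4
    simp [cg, sub_X, map_add, map_mul, h1, h2, h3, Ne.symm h1, Ne.symm h2, Ne.symm h3]
  · by_cases h5 : j = b
    · subst h5
      simp [cg, sub_X, map_add, map_mul, h1, h2, h3, Ne.symm h1, Ne.symm h2, Ne.symm h3]
      ring
    · simp [cg, sub_X, map_add, map_mul, h4, h5]

/-- columns, `c = b`: first `a → b`, then `b → d` -/
lemma nrm_col2 {n m : ℕ} (a b d : Fin m) (h1 : a ≠ b) (h2 : d ≠ b) (h3 : d ≠ a) :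
    NormRel (cg (n := n) a b) (cg (n := n) b d) (cg (n := n) a d) 1 := by
  intro t r
  apply MvPolynomial.algHom_ext
  rintro ⟨i, j⟩
  simp only [AlgHom.comp_apply, sub_X, map_add, map_mul, algHom_C]
  by_cases h4 : j = d
  · subst h4
    simp [cg, sub_X, map_add, map_mul, h1, h2, h3, Ne.symm h1, Ne.symm h2, Ne.symm h3]
    ring
  · by_cases h5 : j = b
    · subst h5
      simp [cg, sub_X, map_add, map_mul, h1, h2, h3, Ne.symm h1, Ne.symm h2, Ne.symm h3]
    · simp [cg, sub_X, map_add, map_mul, h4, h5]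

/-! ## the family of groups -/

/-- the root `(j, i)` : column `j` of block 1 is added to column `i` of block 2 -/
def rt {n : ℕ} (x : Fin n × Fin n) : Fin n × Fin (n + n) → Option (Fin n × Fin (n + n)) :=
  cg (Fin.castAdd n x.1) (Fin.natAdd n x.2)

/-- stable under rows, the two blocks and the roots in `T` -/
structure ST {n : ℕ} (T : Finset (Fin n × Fin n)) (P : Ideal (S (Fin n × Fin (n + n)))) : Prop where
  row : ∀ a b : Fin n, a < b → Stab (rg b a) P
  c1 : ∀ a b : Fin n, a < b → Stab (cg (Fin.castAdd n a) (Fin.castAdd n b)) P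
  c2 : ∀ a b : Fin n, a < b → Stab (cg (Fin.natAdd n a) (Fin.natAdd n b)) P
  r : ∀ x ∈ T, Stab (rt x) P

/-- closed set of roots -/
def Clo {n : ℕ} (T : Finset (Fin n × Fin n)) : Prop :=
  ∀ x ∈ T, ∀ y : Fin n × Fin n, y.1 ≤ x.1 → x.2 ≤ y.2 → y ∈ T

lemma cN {n : ℕ} (a b : Fin n) : Fin.castAdd n a ≠ Fin.natAdd n b := by
  intro h
  have := congrArg Fin.val h
  simp at this
  omega

lemma cC {n : ℕ} {a b : Fin n} (h : a ≠ b) : Fin.castAdd n a ≠ Fin.castAdd n b := by
  intro h'
  exact h (Fin.ext (by simpa using congrArg Fin.val h'))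

lemma nN {n : ℕ} {a b : Fin n} (h : a ≠ b) : Fin.natAdd n a ≠ Fin.natAdd n b := by
  intro h'
  exact h (Fin.ext (by simpa using congrArg Fin.val h'))

lemma st_next (hPOLY : S_POLY) (hNRM : S_NRM) {n : ℕ} (T : Finset (Fin n × Fin n))
    (x : Fin n × Fin n) (hT : Clo (insert x T)) (P : Ideal (S (Fin n × Fin (n + n))))
    (hP : ST T P) (h1 : Stab (rt x) (PZ (rt x) P)) (h2 : Stab (rt x) (JJ (rt x) P)) :
    ST (insert x T) (PZ (rt x) P) ∧ ST (insert x T) (JJ (rt x) P) := by
  have hin : ∀ y : Fin n × Fin n, y ≠ x → y.1 ≤ x.1 → x.2 ≤ y.2 → y ∈ T := by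
    intro y hy h3 h4
    have := hT x (Finset.mem_insert_self _ _) y h3 h4
    rcases Finset.mem_insert.1 this with h | h
    · exact absurd h hy
    · exact h
  have hfx : Flat (rt x) := flat_cg (cN _ _)
  have key : ∀ (h k : Fin n × Fin (n + n) → Option (Fin n × Fin (n + n))) (ε : ℂ), Flat h →
      Flat k → NormRel (rt x) h k ε → Stab h P → Stab k P →
      Stab h (PZ (rt x) P) ∧ Stab h (JJ (rt x) P) := fun h k ε a b c d e =>
    hNRM _ (rt x) h k ε P hfx a b c d e
  have kr : ∀ a b : Fin n, a < b →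
      Stab (rg b a) (PZ (rt x) P) ∧ Stab (rg b a) (JJ (rt x) P) := fun a b hab =>
    key _ nog 0 (flat_rg hab.ne') flat_nog (nrm_row _ _ _ _) (hP.row a b hab) (stab_nog hPOLY P)
  have k1 : ∀ a b : Fin n, a < b →
      Stab (cg (Fin.castAdd n a) (Fin.castAdd n b)) (PZ (rt x) P) ∧
      Stab (cg (Fin.castAdd n a) (Fin.castAdd n b)) (JJ (rt x) P) := by
    intro a b hab
    by_cases hb : b = x.1
    · subst hb
      refine key _ (rt (a, x.2)) (-1) (flat_cg (cC hab.ne)) (flat_cg (cN _ _)) ?_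
        (hP.c1 _ _ hab) (hP.r _ (hin _ ?_ hab.le le_rfl))
      · exact nrm_col1 _ _ _ (cN _ _) (cN _ _) (cC hab.ne)
      · intro h
        have := congrArg Prod.fst h
        simp at this
        exact hab.ne this
    · exact key _ nog 0 (flat_cg (cC hab.ne)) flat_nog
        (nrm_col0 _ _ _ _ (cC hb) (cN _ _)) (hP.c1 a b hab) (stab_nog hPOLY P)
  have k2 : ∀ a b : Fin n, a < b →
      Stab (cg (Fin.natAdd n a) (Fin.natAdd n b)) (PZ (rt x) P) ∧
      Stab (cg (Fin.natAdd n a) (Fin.natAdd n b)) (JJ (rt x) P) := by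
    intro a b hab
    by_cases ha : a = x.2
    · subst ha
      refine key _ (rt (x.1, b)) 1 (flat_cg (nN hab.ne)) (flat_cg (cN _ _)) ?_
        (hP.c2 _ _ hab) (hP.r _ (hin _ ?_ le_rfl hab.le))
      · exact nrm_col2 _ _ _ (cN _ _) (nN hab.ne') (cN _ _).symm
      · intro h
        have := congrArg Prod.snd h
        simp at this
        exact hab.ne' this
    · exact key _ nog 0 (flat_cg (nN hab.ne)) flat_nog
        (nrm_col0 _ _ _ _ (cN _ _).symm (nN ha)) (hP.c2 a b hab) (stab_nog hPOLY P)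
  have k3 : ∀ y ∈ insert x T, Stab (rt y) (PZ (rt x) P) ∧ Stab (rt y) (JJ (rt x) P) := by
    intro y hy
    rcases Finset.mem_insert.1 hy with rfl | hy
    · exact ⟨h1, h2⟩
    · exact key _ nog 0 (flat_cg (cN _ _)) flat_nog
        (nrm_col0 _ _ _ _ (cN _ _).symm (cN _ _)) (hP.r y hy) (stab_nog hPOLY P)
  exact ⟨⟨fun a b h => (kr a b h).1, fun a b h => (k1 a b h).1, fun a b h => (k2 a b h).1,
      fun y hy => (k3 y hy).1⟩,
    ⟨fun a b h => (kr a b h).2, fun a b h => (k1 a b h).2, fun a b h => (k2 a b h).2,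
      fun y hy => (k3 y hy).2⟩⟩

/-! ## the induction -/

/-- condition on parameters (without injectivity) -/
def Cn {n : ℕ} (a b : Fin n → ℤ) : Prop :=
  (∀ i, 0 < a i) ∧ (∀ j, 0 < b j) ∧ (∀ i j, b j < a i)

abbrev Tm (n : ℕ) := MvPolynomial (Fin n) ℕ × ℕ × (Fin n → Option (Fin (n + n)))

noncomputable def val {n : ℕ} (a b : Fin n → ℤ) (x : Tm n) : ℝ :=
  (eval₂ (Nat.castRingHom ℝ) (fun j => (b j : ℝ)) x.1) *
    cl x.2.1 (wt Wm (par a b)) (van (Orb x.2.2))

def Goal {n : ℕ} (P : Ideal (S (Fin n × Fin (n + n)))) (k : ℕ) : Prop :=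
  ∃ l : List (Tm n), (∀ x ∈ l, PInj x.2.2) ∧ ∀ a b : Fin n → ℤ, Cn a b →
    Has k (wt Wm (par a b)) P →
      (∀ x ∈ l, Has x.2.1 (wt Wm (par a b)) (van (Orb x.2.2))) ∧
      cl k (wt Wm (par a b)) P = (l.map (val a b)).sum

lemma pos_Cn {n : ℕ} {a b : Fin n → ℤ} (h : Cn a b) : Pos (Wm (n := n) (m := n + n)) (par a b) :=
  pos_par a _ (append_lt a b h.1 h.2.2)

lemma goal_list {n : ℕ} (k : ℕ) (L : List (Ideal (S (Fin n × Fin (n + n)))))
    (hL : ∀ Q ∈ L, Goal Q k) :
    ∃ l : List (Tm n), (∀ x ∈ l, PInj x.2.2) ∧ ∀ a b : Fin n → ℤ, Cn a b →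
      (∀ Q ∈ L, Has k (wt Wm (par a b)) Q) →
      (∀ x ∈ l, Has x.2.1 (wt Wm (par a b)) (van (Orb x.2.2))) ∧
      (L.map (fun Q => cl k (wt Wm (par a b)) Q)).sum = (l.map (val a b)).sum := by
  induction L with
  | nil => exact ⟨[], by simp, by intro a b _ _; simp⟩
  | cons Q t ih =>
    obtain ⟨l, hl, h⟩ := ih (fun R hR => hL R (List.mem_cons_of_mem _ hR))
    obtain ⟨l1, hl1, h1⟩ := hL Q (by simp)
    refine ⟨l1 ++ l, ?_, ?_⟩
    · intro x hx
      rcases List.mem_append.1 hx with hx | hx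
      · exact hl1 x hx
      · exact hl x hx
    · intro a b hab hh
      obtain ⟨e1, e2⟩ := h a b hab (fun R hR => hh R (List.mem_cons_of_mem _ hR))
      obtain ⟨e3, e4⟩ := h1 a b hab (hh Q (by simp))
      refine ⟨?_, ?_⟩
      · intro x hx
        rcases List.mem_append.1 hx with hx | hx
        · exact e3 x hx
        · exact e1 x hx
      · simp only [List.map_cons, List.sum_cons, List.map_append, List.sum_append]
        rw [e4, e2]


lemma ltC {n : ℕ} {a b : Fin n} (h : Fin.castAdd n a < Fin.castAdd n b) : a < b := by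
  rw [Fin.lt_def] at h ⊢
  simpa using h

lemma ltN {n : ℕ} {a b : Fin n} (h : Fin.natAdd n a < Fin.natAdd n b) : a < b := by
  rw [Fin.lt_def, Fin.val_natAdd, Fin.val_natAdd] at h
  rw [Fin.lt_def]
  omega

/-- weight of a root -/
def al {n : ℕ} (x : Fin n × Fin n) : Fin n ⊕ Fin (n + n) → ℤ :=
  Sum.elim (fun _ => 0) (fun j => (if j = Fin.castAdd n x.1 then 1 else 0) -
    (if j = Fin.natAdd n x.2 then 1 else 0))

lemma opwt_rt {n : ℕ} (x : Fin n × Fin n) : OpWt (Wm (n := n) (m := n + n)) (rt x) (al x) := by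
  intro s s' hs
  unfold rt cg at hs
  split_ifs at hs with h1
  obtain rfl := Option.some.inj hs
  funext r
  rcases r with i | j
  · simp [Wm, al]
  · have hne : Fin.castAdd n x.1 ≠ Fin.natAdd n x.2 := cN _ _
    simp only [Wm, al, Sum.elim_inr, Pi.add_apply, h1]
    revert hne
    generalize Fin.castAdd n x.1 = A
    generalize Fin.natAdd n x.2 = B
    intro hne
    by_cases h2 : j = A
    · have h3 : ¬ j = B := by rw [h2]; exact hne
      simp [h2, hne]
    · by_cases h3 : j = B
      · subst h3; simp [h2]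
      · simp [h2, h3]

lemma pair_al {n : ℕ} (x : Fin n × Fin n) (a b : Fin n → ℤ) : pair (al x) (par a b) = b x.1 := by
  unfold pair al par
  rw [Fintype.sum_sum_type]
  simp only [Sum.elim_inl, Sum.elim_inr, zero_mul, Finset.sum_const_zero, zero_add, sub_mul,
    ite_mul, one_mul, Finset.sum_sub_distrib, Finset.sum_ite_eq', Finset.mem_univ, if_true,
    Fin.append_left, Fin.append_right, sub_zero]

lemma has_zero (hLVL : S_LVL) {σ ρ : Type} [Fintype σ] [DecidableEq σ] [Fintype ρ]
    (W : σ → ρ → ℤ) (p : ρ → ℤ) (hp : Pos W p) (I : Ideal (S σ)) (hI : TG W I) :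
    Has 0 (wt W p) I := by
  obtain ⟨h1, h2⟩ := hLVL σ ρ W p hp I hI
  by_cases h : I = ⊤
  · exact (h2 h 0).1
  · obtain ⟨k, h3, -, h4, -⟩ := h1 h
    rcases Nat.eq_zero_or_pos k with h5 | h5
    · rw [← h5]; exact h3
    · exact (h4 0 h5).1

lemma tg_bot {σ ρ : Type} (W : σ → ρ → ℤ) : TG W (⊥ : Ideal (S σ)) := by
  intro f hf d
  rw [Ideal.mem_bot] at hf
  subst hf
  simp

lemma cl_zero (hLVL : S_LVL) (hSTR : S_STRICT) {σ ρ : Type} [Fintype σ] [DecidableEq σ]
    [Fintype ρ] (W : σ → ρ → ℤ) (p : ρ → ℤ) (hp : Pos W p) (P : Ideal (S σ)) (hP : TG W P)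
    (h0 : P ≠ ⊥) : cl 0 (wt W p) P = 0 :=
  (hSTR σ ρ W ⊥ P p hp Ideal.isPrime_bot (tg_bot W) hP bot_le h0.symm 0
    (has_zero hLVL W p hp ⊥ (tg_bot W))).2.2

lemma goal_of_ST (hLVL : S_LVL) (hSTR : S_STRICT) (hDEC : S_DEC) (hMIN : S_MIN) (hDEG : S_DEG)
    (hPOLY : S_POLY) (hNRM : S_NRM) (hCLASS : S_CLASS) (n : ℕ) :
    ∀ (N : ℕ) (T : Finset (Fin n × Fin n)), (Finset.univ \ T).card = N → Clo T →
      ∀ P : Ideal (S (Fin n × Fin (n + n))), P.IsPrime → TG Wm P → ST T P → ∀ k, Goal P k := by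
  intro N
  induction N with
  | zero =>
    intro T hT _ P hpr htg hst k
    have hall : ∀ x, x ∈ T := by
      intro x
      by_contra hx
      have : x ∈ Finset.univ \ T := by simp [hx]
      rw [Finset.card_eq_zero.1 hT] at this
      simp at this
    have hB : BStab P := by
      refine ⟨hst.row, ?_⟩
      intro a b
      refine Fin.addCases (fun a' => ?_) (fun a' => ?_) a
      · refine Fin.addCases (fun b' => ?_) (fun b' => ?_) b
        · intro h
          exact hst.c1 a' b' (ltC h)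
        · intro h
          exact hst.r (a', b') (hall _)
      · refine Fin.addCases (fun b' => ?_) (fun b' => ?_) b
        · intro h
          exfalso
          rw [Fin.lt_def, Fin.val_natAdd, Fin.val_castAdd] at h
          omega
        · intro h
          exact hst.c2 a' b' (ltN h)
    obtain ⟨c, hc, rfl⟩ := hCLASS n (n + n) P hpr htg hB
    refine ⟨[(1, k, c)], by simpa using hc, ?_⟩
    intro a b hab hh
    refine ⟨by simpa using hh, ?_⟩
    simp [val]
  | succ N ih =>
    intro T hT hclo P hpr htg hst k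
    -- choose a missing root of minimal height
    have hne : (Finset.univ \ T).Nonempty := by
      rw [← Finset.card_pos, hT]; omega
    obtain ⟨x, hx, hmin⟩ := Finset.exists_min_image (Finset.univ \ T)
      (fun x : Fin n × Fin n => (x.1 : ℤ) - (x.2 : ℤ)) hne
    have hxT : x ∉ T := by simpa using hx
    have hclo' : Clo (insert x T) := by
      intro y hy z h1 h2
      rcases Finset.mem_insert.1 hy with rfl | hy
      · by_cases hz : z ∈ T
        · exact Finset.mem_insert_of_mem hz
        · have h3 := hmin z (by simp [hz])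
          have h4 : (z.1 : ℤ) ≤ (y.1 : ℤ) := by exact_mod_cast h1
          have h5 : (y.2 : ℤ) ≤ (z.2 : ℤ) := by exact_mod_cast h2
          have h6 : z.1 = y.1 := Fin.ext (by omega)
          have h7 : z.2 = y.2 := Fin.ext (by omega)
          have : z = y := Prod.ext h6 h7
          rw [this]; exact Finset.mem_insert_self _ _
      · exact Finset.mem_insert_of_mem (hclo y hy z h1 h2)
    have hcard : (Finset.univ \ insert x T).card = N := by
      have : Finset.univ \ insert x T = (Finset.univ \ T).erase x := by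
        ext y
        simp only [Finset.mem_sdiff, Finset.mem_univ, true_and, Finset.mem_insert,
          Finset.mem_erase, not_or, ne_eq]
      rw [this, Finset.card_erase_of_mem hx, hT]
      rfl
    have IH := ih (insert x T) hcard hclo'
    by_cases hs : Stab (rt x) P
    · refine IH P hpr htg ⟨hst.row, hst.c1, hst.c2, ?_⟩ k
      intro y hy
      rcases Finset.mem_insert.1 hy with rfl | hy
      · exact hs
      · exact hst.r y hy
    · have hbot : P ≠ ⊥ := by
        rintro rfl
        apply hs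
        intro f hf k
        rw [Ideal.mem_bot] at hf ⊢
        subst hf
        simp
      rcases Nat.eq_zero_or_pos k with rfl | hk
      · refine ⟨[], by simp, ?_⟩
        intro a b hab _
        refine ⟨by simp, ?_⟩
        rw [cl_zero hLVL hSTR Wm _ (pos_Cn hab) P htg hbot]
        simp
      · obtain ⟨c, rfl⟩ : ∃ c, k = c + 1 := ⟨k - 1, by omega⟩
        by_cases hex : ∃ p, Pos (Wm (n := n) (m := n + n)) p
        · obtain ⟨d1, d2, d3, -, -, d6, d7, m, hm, hd⟩ := hDEG _ _ Wm (rt x) (al x) P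
            (flat_cg (cN _ _)) (opwt_rt x) hpr htg hs hex
          obtain ⟨s1, s2⟩ := st_next hPOLY hNRM T x hclo' P hst d6 d7
          obtain ⟨L, hL1, hL2⟩ := hDEC _ _ Wm (JJ (rt x) P) d3 hex
          have hgL : ∀ Q ∈ L, Goal Q (c + 1) := by
            intro Q hQ
            obtain ⟨hQm, hQt⟩ := hL1 Q hQ
            refine IH Q hQm.1.1 hQt ⟨?_, ?_, ?_, ?_⟩ (c + 1)
            · intro a b hab
              exact hMIN _ _ _ _ (flat_rg hab.ne') (s2.row a b hab) hQm
            · intro a b hab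
              exact hMIN _ _ _ _ (flat_cg (cC hab.ne)) (s2.c1 a b hab) hQm
            · intro a b hab
              exact hMIN _ _ _ _ (flat_cg (nN hab.ne)) (s2.c2 a b hab) hQm
            · intro y hy
              exact hMIN _ _ _ _ (flat_cg (cN _ _)) (s2.r y hy) hQm
          obtain ⟨l1, hl1, e1⟩ := goal_list (c + 1) L hgL
          obtain ⟨l2, hl2, e2⟩ := IH (PZ (rt x) P) d1 d2 s1 c
          refine ⟨l1 ++ l2.map (fun y => (C m * X x.1 * y.1, y.2.1, y.2.2)), ?_, ?_⟩
          · intro y hy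
            rcases List.mem_append.1 hy with hy | hy
            · exact hl1 y hy
            · obtain ⟨z, hz, rfl⟩ := List.mem_map.1 hy
              exact hl2 z hz
          · intro a b hab hh
            obtain ⟨f1, f2, -, f4⟩ := hd (par a b) (pos_Cn hab)
              (by rw [pair_al]; exact hab.2.1 _) c hh
            obtain ⟨g1, g2⟩ := hL2 (par a b) (pos_Cn hab) (c + 1) f1
            obtain ⟨g3, g4⟩ := e1 a b hab g1
            obtain ⟨g5, g6⟩ := e2 a b hab f2
            refine ⟨?_, ?_⟩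
            · intro y hy
              rcases List.mem_append.1 hy with hy | hy
              · exact g3 y hy
              · obtain ⟨z, hz, rfl⟩ := List.mem_map.1 hy
                exact g5 z hz
            · rw [f4, g2, g4, g6, pair_al, List.map_append, List.sum_append, List.map_map]
              congr 1
              rw [← List.sum_map_mul_left]
              congr 1
              apply List.map_congr_left
              intro y _
              simp only [Function.comp_apply, val, eval₂_mul, eval₂_C, eval₂_X,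
                Nat.coe_castRingHom]
              ring
        · refine ⟨[], by simp, ?_⟩
          intro a b hab _
          exact absurd ⟨_, pos_Cn hab⟩ hex

theorem t_CHAIN (hLVL : S_LVL) (hSTR : S_STRICT) (hDEC : S_DEC) (hMIN : S_MIN) (hDEG : S_DEG)
    (hPOLY : S_POLY) (hNRM : S_NRM) (hCLASS : S_CLASS) : S_CHAIN := by
  intro n P hpr htg hr h1 h2 k
  obtain ⟨l, hl, h⟩ := goal_of_ST hLVL hSTR hDEC hMIN hDEG hPOLY hNRM hCLASS n _ ∅ rfl
    (by intro x hx; simp at hx) P hpr htg ⟨hr, h1, h2, by intro x hx; simp at hx⟩ k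
  refine ⟨l, hl, ?_⟩
  intro a b ha hb hab hh
  exact h a b ⟨ha, hb, hab⟩ hh

end Pool.Agent.KIR
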