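import Mathlib
/-!
# PROJECT KIR: interface (definitions and section statements)
Full answer of MP_9c9c2f_co (frozen S10395).  Proof text: `team-store get kir_proof.md`.
-/
set_option autoImplicit false
namespace Pool.Agent.KIR
open MvPolynomial Filter Topology

/-- the polynomial ring -/
abbrev S (σ : Type) := MvPolynomial σ ℂ

section general
variable {σ ρ : Type}

/-- `I` is graded for the weights `W : σ → ℤ^ρ` (torus graded). -/
def TG (W : σ → (ρ → ℤ)) (I : Ideal (S σ)) : Prop :=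
  ∀ f ∈ I, ∀ d : ρ → ℤ, weightedHomogeneousComponent W d f ∈ I

/-- pairing of a weight with a parameter vector -/
def pair [Fintype ρ] (α p : ρ → ℤ) : ℤ := ∑ i, α i * p i

/-- the parameter vector is positive on all variables -/
def Pos [Fintype ρ] (W : σ → (ρ → ℤ)) (p : ρ → ℤ) : Prop := ∀ s, 0 < pair (W s) p

/-- the natural weights given by a parameter vector -/
def wt [Fintype ρ] (W : σ → (ρ → ℤ)) (p : ρ → ℤ) (s : σ) : ℕ := (pair (W s) p).toNat

/-- Hilbert function of `S / I` for natural weights `w` (dimension of the image of `S_a` in `S/I`) -/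
noncomputable def hf (w : σ → ℕ) (I : Ideal (S σ)) (a : ℕ) : ℕ :=
  Module.finrank ℂ ((weightedHomogeneousSubmodule ℂ w a).map (Ideal.Quotient.mkₐ ℂ I).toLinearMap)

/-- Hilbert series as a real function on `(0,1)` -/
noncomputable def Hs (w : σ → ℕ) (I : Ideal (S σ)) (q : ℝ) : ℝ := ∑' a : ℕ, (hf w I a : ℝ) * q ^ a

/-- normalized Hilbert series at level `c` -/
noncomputable def G [Fintype σ] (c : ℕ) (w : σ → ℕ) (I : Ideal (S σ)) (q : ℝ) : ℝ :=
  (∏ s, (w s : ℝ)) * (1 - q) ^ (Fintype.card σ) * Hs w I q / (1 - q) ^ c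

/-- the limit at level `c` exists (it does iff the codimension is at least `c`) -/
def Has [Fintype σ] (c : ℕ) (w : σ → ℕ) (I : Ideal (S σ)) : Prop :=
  ∃ L : ℝ, Tendsto (G c w I) (𝓝[<] 1) (𝓝 L)

/-- the class of `S/I` at level `c` (equivariant multiplicity) -/
noncomputable def cl [Fintype σ] (c : ℕ) (w : σ → ℕ) (I : Ideal (S σ)) : ℝ :=
  limUnder (𝓝[<] (1 : ℝ)) (G c w I)

/-- one-parameter group `z_s ↦ z_s + t z_{g s}` (comodule form) -/
noncomputable def op (g : σ → Option σ) : S σ →ₐ[ℂ] Polynomial (S σ) :=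
  aeval (fun s => Polynomial.C (X s) +
    Polynomial.X * ((g s).elim 0 (fun s' => Polynomial.C (X s'))))

/-- the same for a fixed complex number `t` -/
noncomputable def sub (g : σ → Option σ) (t : ℂ) : S σ →ₐ[ℂ] S σ :=
  aeval (fun s => X s + C t * ((g s).elim 0 (fun s' => X s')))

/-- `I` is stable under the one-parameter group of `g` -/
def Stab (g : σ → Option σ) (I : Ideal (S σ)) : Prop := ∀ f ∈ I, ∀ k, (op g f).coeff k ∈ I

/-- `t` has weight `α` -/
def OpWt (W : σ → (ρ → ℤ)) (g : σ → Option σ) (α : ρ → ℤ) : Prop :=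
  ∀ s s', g s = some s' → W s = W s' + α

def Flat (g : σ → Option σ) : Prop := ∀ s s', g s = some s' → g s' = none

noncomputable def opm (g : σ → Option σ) (P : Ideal (S σ)) : S σ →+* Polynomial (S σ ⧸ P) :=
  (Polynomial.mapRingHom (Ideal.Quotient.mk P)).comp ((op g : S σ →ₐ[ℂ] Polynomial (S σ)) : S σ →+* Polynomial (S σ))

/-- ideal of the closure of `U X`, `X` the zero set of `P` -/
noncomputable def PZ (g : σ → Option σ) (P : Ideal (S σ)) : Ideal (S σ) := RingHom.ker (opm g P)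

def InJ (g : σ → Option σ) (P : Ideal (S σ)) (N : ℕ) (f : S σ) : Prop :=
  ∃ h : ℕ → S σ, Polynomial.X ^ N * opm g P f =
    ∑ j ∈ Finset.range N, Polynomial.X ^ j * opm g P (h j)

/-- ideal of the limit of `u(t) X` for `t → ∞` -/
noncomputable def JJ (g : σ → Option σ) (P : Ideal (S σ)) : Ideal (S σ) :=
  Ideal.span {f | ∃ N, InJ g P N f}

/-- vanishing ideal of a set of points -/
def van (V : Set (σ → ℂ)) : Ideal (S σ) where
  carrier := {f | ∀ z ∈ V, eval z f = 0}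
  add_mem' := fun {f g} hf hg z hz => by simp [hf z hz, hg z hz]
  zero_mem' := fun z _ => by simp
  smul_mem' := fun c f hf z hz => by simp [hf z hz]

/-- `g'` is opposite to `g`, `e` the corresponding reflection -/
def Opp (g g' : σ → Option σ) (e : Equiv.Perm σ) : Prop :=
  (∀ s s', g s = some s' ↔ g' s' = some s) ∧ (∀ s s', g s = some s' → e s = s' ∧ e s' = s) ∧
    ∀ s, g s = none → g' s = none → e s = s

/-- `h` normalizes `g` with correction `k` -/
def NormRel (g h k : σ → Option σ) (ε : ℂ) : Prop :=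
  ∀ t r : ℂ, (sub g t).comp (sub h r) = (sub h r).comp ((sub k (ε * t * r)).comp (sub g t))

end general

/-! ## Section S1 -/

/-- S1.  Levels: uniqueness, positivity, the dichotomy. -/
def S_LVL : Prop := ∀ (σ ρ : Type) [Fintype σ] [DecidableEq σ] [Fintype ρ] (W : σ → ρ → ℤ)
  (p : ρ → ℤ), Pos W p → ∀ I : Ideal (S σ), TG W I →
  -- a proper ideal has a unique level with positive class; lower levels have class 0
  (I ≠ ⊤ → ∃ k, Has k (wt W p) I ∧ 0 < cl k (wt W p) I ∧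
    (∀ k', k' < k → Has k' (wt W p) I ∧ cl k' (wt W p) I = 0) ∧
    (∀ k', k < k' → ¬ Has k' (wt W p) I)) ∧
  (I = ⊤ → ∀ k, Has k (wt W p) I ∧ cl k (wt W p) I = 0)

/-- S1.  Strict inclusion of a prime raises the level. -/
def S_STRICT : Prop := ∀ (σ ρ : Type) [Fintype σ] [DecidableEq σ] [Fintype ρ] (W : σ → ρ → ℤ)
  (P J : Ideal (S σ)) (p : ρ → ℤ), Pos W p → P.IsPrime → TG W P → TG W J → P ≤ J → P ≠ J →
  ∀ c, Has c (wt W p) P → Has (c + 1) (wt W p) J ∧ Has c (wt W p) J ∧ cl c (wt W p) J = 0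

/-- S1.  Decomposition along minimal primes; the list `l` (with repetitions) does not depend on
the parameter vector `p`. -/
def S_DEC : Prop := ∀ (σ ρ : Type) [Fintype σ] [DecidableEq σ] [Fintype ρ] (W : σ → ρ → ℤ)
  (J : Ideal (S σ)), TG W J → (∃ p, Pos W p) →
  ∃ l : List (Ideal (S σ)), (∀ Q ∈ l, Q ∈ J.minimalPrimes ∧ TG W Q) ∧
    ∀ p, Pos W p → ∀ c, Has c (wt W p) J →
      (∀ Q ∈ l, Has c (wt W p) Q) ∧
        cl c (wt W p) J = (l.map (fun Q => cl c (wt W p) Q)).sum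

/-- S1.  Minimal primes of a stable ideal are stable. -/
def S_MIN : Prop := ∀ (σ : Type) [Fintype σ] [DecidableEq σ] (g : σ → Option σ)
  (J Q : Ideal (S σ)), Flat g → Stab g J → Q ∈ J.minimalPrimes → Stab g Q

/-! ## Section S2 -/

/-- S2.  The degeneration formula. -/
def S_DEG : Prop := ∀ (σ ρ : Type) [Fintype σ] [DecidableEq σ] [Fintype ρ] (W : σ → ρ → ℤ)
  (g : σ → Option σ) (α : ρ → ℤ) (P : Ideal (S σ)), Flat g → OpWt W g α → P.IsPrime → TG W P →
  ¬ Stab g P → (∃ p, Pos W p) →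
  (PZ g P).IsPrime ∧ TG W (PZ g P) ∧ TG W (JJ g P) ∧ PZ g P ≤ P ∧ PZ g P ≠ P ∧
  Stab g (PZ g P) ∧ Stab g (JJ g P) ∧
  ∃ m : ℕ, 0 < m ∧ ∀ p, Pos W p → 0 < pair α p → ∀ c, Has (c + 1) (wt W p) P →
    Has (c + 1) (wt W p) (JJ g P) ∧ Has c (wt W p) (PZ g P) ∧
    (0 < cl (c + 1) (wt W p) P → 0 < cl c (wt W p) (PZ g P)) ∧
    cl (c + 1) (wt W p) P =
      cl (c + 1) (wt W p) (JJ g P) + m * (pair α p : ℝ) * cl c (wt W p) (PZ g P)

/-- S2.  Stability of `PZ` and `JJ` under a group `h` that normalizes `g` (with correction `k`). -/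
def S_NRM : Prop := ∀ (σ : Type) [Fintype σ] [DecidableEq σ] (g h k : σ → Option σ) (ε : ℂ)
  (P : Ideal (S σ)), Flat g → Flat h → Flat k → NormRel g h k ε → Stab h P → Stab k P →
  Stab h (PZ g P) ∧ Stab h (JJ g P)

/-- S2.  Stability can be tested with complex numbers `t`. -/
def S_POLY : Prop := ∀ (σ : Type) [Fintype σ] [DecidableEq σ] (g : σ → Option σ)
  (I : Ideal (S σ)), Stab g I ↔ ∀ t : ℂ, ∀ f ∈ I, sub g t f ∈ I

/-! ## Section S3 -/

/-- S3.  Opposite groups: the limit is the reflected ideal. -/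
def S_ROW : Prop := ∀ (σ ρ : Type) [Fintype σ] [DecidableEq σ] [Fintype ρ] (W : σ → ρ → ℤ)
  (g g' : σ → Option σ) (e : Equiv.Perm σ) (α : ρ → ℤ) (P : Ideal (S σ)),
  Flat g → Flat g' → Opp g g' e → OpWt W g α → P.IsPrime → TG W P → ¬ Stab g P → Stab g' P →
  (∃ p, Pos W p) →
  -- the torus contains the torus of the GL2 of `g, g'`
  (∃ p1 p2 : ρ → ℤ, (∀ s s', g s = some s' → pair (W s) p1 = 1 ∧ pair (W s') p1 = 0 ∧
      pair (W s) p2 = 0 ∧ pair (W s') p2 = 1) ∧
    ∀ s, g s = none → g' s = none → pair (W s) p1 = 0 ∧ pair (W s) p2 = 0) →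
  JJ g P = P.comap (rename e : S σ →ₐ[ℂ] S σ) ∧ Stab g' (PZ g P) ∧
  ∃ m : ℕ, 0 < m ∧ ∀ p p', Pos W p → Pos W p' → (∀ s, pair (W (e s)) p' = pair (W s) p) →
    0 < pair α p → ∀ c, Has (c + 1) (wt W p) P →
    Has (c + 1) (wt W p') P ∧ Has c (wt W p) (PZ g P) ∧ Has c (wt W p') (PZ g P) ∧
    (0 < cl (c + 1) (wt W p) P → 0 < cl c (wt W p) (PZ g P)) ∧
    cl c (wt W p') (PZ g P) = cl c (wt W p) (PZ g P) ∧
    cl (c + 1) (wt W p) P =
      cl (c + 1) (wt W p') P + m * (pair α p : ℝ) * cl c (wt W p) (PZ g P)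

/-! ## Section S4: matrices -/

section mat
variable {n m : ℕ}

/-- row operation: row `a` ← row `a` + t row `b` -/
def rg (a b : Fin n) : Fin n × Fin m → Option (Fin n × Fin m) :=
  fun s => if s.1 = a then some (b, s.2) else none

/-- column operation: column `b` ← column `b` + t column `a` -/
def cg (a b : Fin m) : Fin n × Fin m → Option (Fin n × Fin m) :=
  fun s => if s.2 = b then some (s.1, a) else none

/-- torus weight `x_i - y_j` of the variable `(i,j)` -/
def Wm (s : Fin n × Fin m) : Fin n ⊕ Fin m → ℤ :=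
  Sum.elim (fun i => if i = s.1 then 1 else 0) (fun j => if j = s.2 then -1 else 0)

def PInj (c : Fin n → Option (Fin m)) : Prop :=
  ∀ i i' j, c i = some j → c i' = some j → i = i'

/-- partial permutation matrix -/
def Mc (c : Fin n → Option (Fin m)) : Matrix (Fin n) (Fin m) ℂ :=
  fun i j => if c i = some j then 1 else 0

/-- orbit of lower triangular row operations and upper triangular column operations -/
def Orb (c : Fin n → Option (Fin m)) : Set (Fin n × Fin m → ℂ) :=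
  {z | ∃ (b : Matrix (Fin n) (Fin n) ℂ) (b' : Matrix (Fin m) (Fin m) ℂ),
    (∀ i j, i < j → b i j = 0) ∧ (∀ i, b i i ≠ 0) ∧ (∀ i j, j < i → b' i j = 0) ∧
    (∀ i, b' i i ≠ 0) ∧ ∀ s, z s = (b * Mc c * b') s.1 s.2}

/-- stable under the lower triangular row operations and upper triangular column operations -/
def BStab (P : Ideal (S (Fin n × Fin m))) : Prop :=
  (∀ a b : Fin n, a < b → Stab (rg b a) P) ∧ (∀ a b : Fin m, a < b → Stab (cg a b) P)

/-- position (`none` is infinity) -/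
def pos (o : Option (Fin m)) : ℕ := o.elim m (fun j => (j : ℕ))

/-- decreasing: every row to the left of the row above (empty rows on top) -/
def Dec (c : Fin n → Option (Fin m)) : Prop :=
  ∀ i i' : Fin n, i < i' → pos (c i') < pos (c i) ∨ (c i = none ∧ c i' = none)

/-- the boxes of the linear ideal of a decreasing `c` -/
def Zb (c : Fin n → Option (Fin m)) : Finset (Fin n × Fin m) :=
  Finset.univ.filter (fun s => (s.2 : ℕ) < pos (c s.1))

end mat

/-- S4.  Classification of the stable graded primes. -/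
def S_CLASS : Prop := ∀ (n m : ℕ) (P : Ideal (S (Fin n × Fin m))), P.IsPrime → TG Wm P → BStab P →
  ∃ c : Fin n → Option (Fin m), PInj c ∧ P = van (Orb c)

/-- S4.  Orbit ideals are prime, graded and stable. -/
def S_ORB : Prop := ∀ (n m : ℕ) (c : Fin n → Option (Fin m)), PInj c →
  (van (Orb c)).IsPrime ∧ TG Wm (van (Orb c)) ∧ BStab (van (Orb c))

/-- S4.  One step: rows `i, i+1` with `c i` to the right of `c (i+1)`. -/
def S_STEP : Prop := ∀ (n m : ℕ) (c : Fin n → Option (Fin m)) (i j : Fin n), PInj c →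
  (j : ℕ) = i + 1 → pos (c j) < pos (c i) →
  ¬ Stab (rg i j) (van (Orb c)) ∧ PZ (rg i j) (van (Orb c)) = van (Orb (c ∘ Equiv.swap i j))

/-- S4.  The linear ideals on top. -/
def S_TOP : Prop := ∀ (n m : ℕ) (c : Fin n → Option (Fin m)), PInj c → Dec c →
  ∀ p, Pos (Wm (n := n) (m := m)) p →
  Has (Zb c).card (wt Wm p) (van (Orb c)) ∧
  cl (Zb c).card (wt Wm p) (van (Orb c)) = ∏ s ∈ Zb c, (pair (Wm s) p : ℝ)

/-! ## Two blocks of columns -/

section two
variable {n : ℕ}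

/-- first block (columns `0..n-1`) in `Orb c`, second block in `Orb c'` -/
def Orb2 (c c' : Fin n → Option (Fin n)) : Set (Fin n × Fin (n + n) → ℂ) :=
  {z | (fun s : Fin n × Fin n => z (s.1, Fin.castAdd n s.2)) ∈ Orb c ∧
    (fun s : Fin n × Fin n => z (s.1, Fin.natAdd n s.2)) ∈ Orb c'}

/-- parameters: rows `a`, first block of columns `b`, second block `0` -/
def par (a b : Fin n → ℤ) : Fin n ⊕ Fin (n + n) → ℤ :=
  Sum.elim a (Fin.append b (fun _ => 0))

end two

/-- numeric divided difference -/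
noncomputable def dn {n : ℕ} (i j : Fin n) (F : (Fin n → ℤ) → ℝ) : (Fin n → ℤ) → ℝ :=
  fun a => (F a - F (a ∘ Equiv.swap i j)) / ((a i : ℝ) - a j)

/-- word of divided differences (the last letter is applied first) -/
noncomputable def dw {n : ℕ} (l : List (Fin n × Fin n)) (F : (Fin n → ℤ) → ℝ) :
    (Fin n → ℤ) → ℝ := l.foldr (fun x G => dn x.1 x.2 G) F

/-- adjacent letters -/
def Adj {n : ℕ} (l : List (Fin n × Fin n)) : Prop := ∀ x ∈ l, (x.2 : ℕ) = x.1 + 1

/-- numeric double Schubert polynomials -/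
def IsSch {n : ℕ} (Sn : Equiv.Perm (Fin n) → (Fin n → ℤ) → (Fin n → ℤ) → ℝ) : Prop :=
  (∀ b a, Sn Fin.revPerm b a =
    ∏ s ∈ Finset.univ.filter (fun s : Fin n × Fin n => (s.1 : ℕ) + s.2 + 1 < n), ((a s.1 : ℝ) - b s.2)) ∧
  ∀ (u : Equiv.Perm (Fin n)) (i j : Fin n), (j : ℕ) = i + 1 → u j < u i →
    ∀ b a, Function.Injective a → Sn (u * Equiv.swap i j) b a = dn i j (Sn u b) a

/-! ## Section S5 -/

/-- S5a.  Classes of the orbit ideals. -/
def S_FC : Prop := ∀ (n m : ℕ) (c : Fin n → Option (Fin m)), PInj c →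
  ∃ (k M : ℕ) (l : List (Fin n × Fin n)) (c0 : Fin n → Option (Fin m)), 0 < M ∧ Adj l ∧
    PInj c0 ∧ Dec c0 ∧ ∀ (a : Fin n → ℤ) (b : Fin m → ℤ), Function.Injective a →
      (∀ i j, b j < a i) →
      Has k (wt Wm (Sum.elim a b)) (van (Orb c)) ∧ 0 < cl k (wt Wm (Sum.elim a b)) (van (Orb c)) ∧
      (M : ℝ) * cl k (wt Wm (Sum.elim a b)) (van (Orb c)) =
        dw l (fun a' => ∏ s ∈ Zb c0, ((a' s.1 : ℝ) - b s.2)) a

/-- S5b.  Class of the product of two matrix Schubert varieties. -/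
def S_FUV : Prop := ∀ (n : ℕ) (Sn : Equiv.Perm (Fin n) → (Fin n → ℤ) → (Fin n → ℤ) → ℝ),
  IsSch Sn → ∀ u v : Equiv.Perm (Fin n),
  (van (Orb2 (fun i => some (v i)) (fun i => some (u i)))).IsPrime ∧
  TG Wm (van (Orb2 (fun i => some (v i)) (fun i => some (u i)))) ∧
  (∀ a b : Fin n, a < b → Stab (rg b a) (van (Orb2 (fun i => some (v i)) (fun i => some (u i))))) ∧
  (∀ a b : Fin n, a < b → Stab (cg (Fin.castAdd n a) (Fin.castAdd n b))
    (van (Orb2 (fun i => some (v i)) (fun i => some (u i))))) ∧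
  (∀ a b : Fin n, a < b → Stab (cg (Fin.natAdd n a) (Fin.natAdd n b))
    (van (Orb2 (fun i => some (v i)) (fun i => some (u i))))) ∧
  ∃ k M : ℕ, 0 < M ∧ ∀ a b : Fin n → ℤ, Function.Injective a → (∀ i, 0 < a i) →
    (∀ i j, b j < a i) →
    Has k (wt Wm (par a b)) (van (Orb2 (fun i => some (v i)) (fun i => some (u i)))) ∧
    (M : ℝ) * cl k (wt Wm (par a b)) (van (Orb2 (fun i => some (v i)) (fun i => some (u i)))) =
      Sn u (fun _ => 0) a * Sn v b a

/-- S5c.  The chain of column degenerations. -/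
def S_CHAIN : Prop := ∀ (n : ℕ) (P : Ideal (S (Fin n × Fin (n + n)))), P.IsPrime → TG Wm P →
  (∀ a b : Fin n, a < b → Stab (rg b a) P) →
  (∀ a b : Fin n, a < b → Stab (cg (Fin.castAdd n a) (Fin.castAdd n b)) P) →
  (∀ a b : Fin n, a < b → Stab (cg (Fin.natAdd n a) (Fin.natAdd n b)) P) →
  ∀ k : ℕ, ∃ l : List (MvPolynomial (Fin n) ℕ × ℕ × (Fin n → Option (Fin (n + n)))),
    (∀ x ∈ l, PInj x.2.2) ∧ ∀ a b : Fin n → ℤ, (∀ i, 0 < a i) → (∀ j, 0 < b j) →
      (∀ i j, b j < a i) → Has k (wt Wm (par a b)) P →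
      (∀ x ∈ l, Has x.2.1 (wt Wm (par a b)) (van (Orb x.2.2))) ∧
      cl k (wt Wm (par a b)) P = (l.map (fun x =>
        (eval₂ (Nat.castRingHom ℝ) (fun j => (b j : ℝ)) x.1) *
          cl x.2.1 (wt Wm (par a b)) (van (Orb x.2.2)))).sum

/-- S5d.  The geometric identity. -/
def S_GEO : Prop := ∀ (n : ℕ) (Sn : Equiv.Perm (Fin n) → (Fin n → ℤ) → (Fin n → ℤ) → ℝ),
  IsSch Sn → ∀ u v : Equiv.Perm (Fin n),
  ∃ l : List (MvPolynomial (Fin n) ℕ × List (Fin n × Fin n) × (Fin n → Option (Fin (n + n)))),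
    ∃ K : ℕ, 0 < K ∧ (∀ x ∈ l, Adj x.2.1 ∧ PInj x.2.2 ∧ Dec x.2.2) ∧
    ∀ a b : Fin n → ℤ, Function.Injective a → (∀ i, 0 < a i) → (∀ j, 0 < b j) →
      (∀ i j, b j < a i) →
      (K : ℝ) * (Sn u (fun _ => 0) a * Sn v b a) = (l.map (fun x =>
        (eval₂ (Nat.castRingHom ℝ) (fun j => (b j : ℝ)) x.1) *
          dw x.2.1 (fun a' => ∏ s ∈ Zb x.2.2,
            ((a' s.1 : ℝ) - (Fin.append b (fun _ => (0 : ℤ)) s.2 : ℤ))) a)).sum

/-! ## Section S4': two blocks -/

section two'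
variable {n : ℕ}

/-- row operation in the first block of columns only: row `a` ← row `a` + t row `b` -/
def rgC (a b : Fin n) : Fin n × Fin (n + n) → Option (Fin n × Fin (n + n)) :=
  fun s => if s.1 = a ∧ (s.2 : ℕ) < n then some (b, s.2) else none

/-- row operation in the second block of columns only -/
def rgA (a b : Fin n) : Fin n × Fin (n + n) → Option (Fin n × Fin (n + n)) :=
  fun s => if s.1 = a ∧ ¬ (s.2 : ℕ) < n then some (b, s.2) else none

/-- torus with separate row weights for the two blocks: `(i,j)` has weight `x_i - y_j` in the first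
block, `x'_i - y_j` in the second -/
def W2 (s : Fin n × Fin (n + n)) : (Fin n ⊕ Fin n) ⊕ Fin (n + n) → ℤ :=
  Sum.elim (Sum.elim (fun i => if i = s.1 ∧ (s.2 : ℕ) < n then 1 else 0)
    (fun i => if i = s.1 ∧ ¬ (s.2 : ℕ) < n then 1 else 0)) (fun j => if j = s.2 then -1 else 0)

end two'

/-- S4'.  Products of orbits: prime, graded, stable. -/
def S_ORB2 : Prop := ∀ (n : ℕ) (c c' : Fin n → Option (Fin n)), PInj c → PInj c' →
  (van (Orb2 c c')).IsPrime ∧ TG W2 (van (Orb2 c c')) ∧ TG Wm (van (Orb2 c c')) ∧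
  (∀ a b : Fin n, a < b → Stab (rgC b a) (van (Orb2 c c')) ∧ Stab (rgA b a) (van (Orb2 c c')) ∧
    Stab (rg b a) (van (Orb2 c c'))) ∧
  (∀ a b : Fin n, a < b → Stab (cg (Fin.castAdd n a) (Fin.castAdd n b)) (van (Orb2 c c')) ∧
    Stab (cg (Fin.natAdd n a) (Fin.natAdd n b)) (van (Orb2 c c')))

/-- S4'.  One step in one of the two blocks. -/
def S_STEP2 : Prop := ∀ (n : ℕ) (c c' : Fin n → Option (Fin n)) (i j : Fin n), PInj c → PInj c' →
  (j : ℕ) = i + 1 →
  (pos (c j) < pos (c i) → ¬ Stab (rgC i j) (van (Orb2 c c')) ∧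
    PZ (rgC i j) (van (Orb2 c c')) = van (Orb2 (c ∘ Equiv.swap i j) c')) ∧
  (pos (c' j) < pos (c' i) → ¬ Stab (rgA i j) (van (Orb2 c c')) ∧
    PZ (rgA i j) (van (Orb2 c c')) = van (Orb2 c (c' ∘ Equiv.swap i j)))

/-- S4'.  Top: both blocks the longest permutation; parameters `a` (rows of the first block), `a'`
(rows of the second block), `b` (columns). -/
def S_TOP2 : Prop := ∀ (n : ℕ) (p : (Fin n ⊕ Fin n) ⊕ Fin (n + n) → ℤ), Pos (W2 (n := n)) p →
  Has (n * (n - 1)) (wt W2 p)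
    (van (Orb2 (n := n) (fun i => some (Fin.revPerm i)) (fun i => some (Fin.revPerm i)))) ∧
  cl (n * (n - 1)) (wt W2 p)
    (van (Orb2 (n := n) (fun i => some (Fin.revPerm i)) (fun i => some (Fin.revPerm i)))) =
    ∏ s ∈ Finset.univ.filter (fun s : Fin n × Fin (n + n) =>
      ((s.2 : ℕ) < n ∧ (s.1 : ℕ) + s.2 + 1 < n) ∨ (n ≤ (s.2 : ℕ) ∧ (s.1 : ℕ) + s.2 + 1 < n + n)),
      (pair (W2 s) p : ℝ)

/-- Section S6.  From the geometric identity to the frozen statement S10395 (literally). -/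
def S_FROZEN : Prop :=
    ∀ (n : ℕ) (D : Equiv.Perm (Fin n) → MvPolynomial (Fin n) ℤ → MvPolynomial (Fin n) ℤ)
      (E : Equiv.Perm (Fin n) → Equiv.Perm (Fin n) → MvPolynomial (Fin n) ℤ → MvPolynomial (Fin n) ℤ),
      (∀ f, D 1 f = f) →
      (∀ (w : Equiv.Perm (Fin n)) (i j : Fin n), j.val = i.val + 1 →
        (Finset.univ.filter (fun p : Fin n × Fin n =>
            p.1 < p.2 ∧ (Equiv.swap i j * w) p.2 < (Equiv.swap i j * w) p.1)).card
          < (Finset.univ.filter (fun p : Fin n × Fin n => p.1 < p.2 ∧ w p.2 < w p.1)).card →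
        ∀ f, (MvPolynomial.X i - MvPolynomial.X j) * D w f
          = D (Equiv.swap i j * w) f
            - MvPolynomial.rename (⇑(Equiv.swap i j)) (D (Equiv.swap i j * w) f)) →
      (∀ (w : Equiv.Perm (Fin n)) (f g : MvPolynomial (Fin n) ℤ),
        D w (f * g) = ∑ v : Equiv.Perm (Fin n), E w v f * D v g) →
      ∀ (u v w : Equiv.Perm (Fin n)) (m : Fin n →₀ ℕ),
        0 ≤ MvPolynomial.coeff m
          (E w v (D (u⁻¹ * Fin.revPerm)
            (∏ i : Fin n, MvPolynomial.X i ^ (n - 1 - (i : ℕ)))))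

/-- Section S6. -/
def S_ALG : Prop := S_GEO → S_FROZEN

end Pool.Agent.KIR
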