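import Pool.Agent.KIR.Chain
set_option autoImplicit false
set_option linter.all false
namespace Pool.Agent.KIR
open MvPolynomial Filter Topology

/-- one row step, symmetric in the two parameter vectors -/
lemma row_step (hLVL : S_LVL) (hSTR : S_STRICT) (hROW : S_ROW) {σ ρ : Type} [Fintype σ]
    [DecidableEq σ] [Fintype ρ] (W : σ → ρ → ℤ) (g g' : σ → Option σ) (e : Equiv.Perm σ)
    (α : ρ → ℤ) (P Q : Ideal (S σ)) (hg : Flat g) (hg' : Flat g') (hopp : Opp g g' e)
    (hw : OpWt W g α) (hpr : P.IsPrime) (htg : TG W P) (hs : ¬ Stab g P) (hs' : Stab g' P)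
    (hpos : ∃ p, Pos W p)
    (htor : ∃ p1 p2 : ρ → ℤ, (∀ s s', g s = some s' → pair (W s) p1 = 1 ∧ pair (W s') p1 = 0 ∧
      pair (W s) p2 = 0 ∧ pair (W s') p2 = 1) ∧
      ∀ s, g s = none → g' s = none → pair (W s) p1 = 0 ∧ pair (W s) p2 = 0)
    (hQ : PZ g P = Q) :
    ∃ m : ℕ, 0 < m ∧ ∀ p p', Pos W p → Pos W p' → (∀ s, pair (W (e s)) p' = pair (W s) p) →
      (∀ s, pair (W (e s)) p = pair (W s) p') → pair α p' = - pair α p → pair α p ≠ 0 →
      ∀ k, Has k (wt W p) P → 0 < cl k (wt W p) P → Has k (wt W p') P →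
        0 < cl k (wt W p') P →
        0 < k ∧ Has (k - 1) (wt W p) Q ∧ 0 < cl (k - 1) (wt W p) Q ∧
          (m : ℝ) * cl (k - 1) (wt W p) Q =
            (cl k (wt W p) P - cl k (wt W p') P) / (pair α p : ℝ) := by
  subst hQ
  obtain ⟨-, -, m, hm, h⟩ := hROW σ ρ W g g' e α P hg hg' hopp hw hpr htg hs hs' hpos htor
  refine ⟨m, hm, ?_⟩
  intro p p' hp hp' h1 h2 h3 h4 k k1 k2 k3 k4
  have hbot : P ≠ ⊥ := by
    rintro rfl
    apply hs
    intro f hf k
    rw [Ideal.mem_bot] at hf ⊢
    subst hf
    simp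
  have hk : k ≠ 0 := by
    rintro rfl
    rw [cl_zero hLVL hSTR W p hp P htg hbot] at k2
    exact lt_irrefl _ k2
  obtain ⟨c, rfl⟩ : ∃ c, k = c + 1 := ⟨k - 1, by omega⟩
  refine ⟨by omega, ?_⟩
  rw [Nat.add_sub_cancel]
  have h5 : (pair α p : ℝ) ≠ 0 := by exact_mod_cast h4
  rcases lt_or_gt_of_ne h4 with h6 | h6
  · have h7 : 0 < pair α p' := by omega
    obtain ⟨r1, r2, r3, r4, r5, r6⟩ := h p' p hp' hp h2 h7 c k3
    refine ⟨r3, ?_, ?_⟩
    · rw [r5]; exact r4 k4
    · rw [eq_div_iff h5, r5, r6]
      have h8 : (pair α p' : ℝ) = - (pair α p : ℝ) := by rw [h3]; push_cast; ring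
      rw [h8]; ring
  · obtain ⟨r1, r2, r3, r4, r5, r6⟩ := h p p' hp hp' h1 h6 c k1
    refine ⟨r2, r4 k2, ?_⟩
    rw [eq_div_iff h5, r6]; ring

/-! ## S_FC -/

section fc
variable {n m : ℕ}

/-- exchange of two rows -/
def rsw (i j : Fin n) : Equiv.Perm (Fin n × Fin m) :=
  Equiv.prodCongr (Equiv.swap i j) (Equiv.refl _)

lemma opp_rg {i j : Fin n} (h : i ≠ j) : Opp (rg (m := m) i j) (rg (m := m) j i) (rsw i j) := by
  refine ⟨?_, ?_, ?_⟩
  · rintro ⟨a, b⟩ ⟨a', b'⟩
    simp only [rg]
    constructor
    · intro hh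
      split_ifs at hh with h1
      have := Option.some.inj hh
      simp only [Prod.mk.injEq] at this
      obtain ⟨rfl, rfl⟩ := this
      simp [h1]
    · intro hh
      split_ifs at hh with h1
      have := Option.some.inj hh
      simp only [Prod.mk.injEq] at this
      obtain ⟨rfl, rfl⟩ := this
      simp [h1]
  · rintro ⟨a, b⟩ ⟨a', b'⟩ hh
    simp only [rg] at hh
    split_ifs at hh with h1
    have := Option.some.inj hh
    simp only [Prod.mk.injEq] at this
    obtain ⟨rfl, rfl⟩ := this
    simp [rsw, h1]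
  · rintro ⟨a, b⟩ h1 h2
    simp only [rg] at h1 h2
    have h3 : a ≠ i := by
      intro h; simp [h] at h1
    have h4 : a ≠ j := by
      intro h; simp [h] at h2
    simp [rsw, Equiv.swap_apply_of_ne_of_ne h3 h4]

/-- root of a row operation -/
def ra (i j : Fin n) : Fin n ⊕ Fin m → ℤ :=
  Sum.elim (fun r => (if r = i then 1 else 0) - (if r = j then 1 else 0)) (fun _ => 0)

lemma opwt_rg {i j : Fin n} (h : i ≠ j) : OpWt (Wm (n := n) (m := m)) (rg i j) (ra i j) := by
  intro s s' hs
  unfold rg at hs
  split_ifs at hs with h1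
  obtain rfl := Option.some.inj hs
  funext r
  rcases r with r | c
  · simp only [Wm, ra, Sum.elim_inl, Pi.add_apply, h1]
    ring
  · simp [Wm, ra]

lemma pair_Wm (s : Fin n × Fin m) (a : Fin n → ℤ) (b : Fin m → ℤ) :
    pair (Wm s) (Sum.elim a b) = a s.1 - b s.2 := by
  unfold pair Wm
  rw [Fintype.sum_sum_type]
  simp only [Sum.elim_inl, Sum.elim_inr, ite_mul, one_mul, zero_mul, Finset.sum_ite_eq',
    Finset.mem_univ, if_true, neg_mul]
  ring

lemma pair_ra (i j : Fin n) (a : Fin n → ℤ) (b : Fin m → ℤ) :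
    pair (ra (m := m) i j) (Sum.elim a b) = a i - a j := by
  unfold pair ra
  rw [Fintype.sum_sum_type]
  simp only [Sum.elim_inl, Sum.elim_inr, zero_mul, Finset.sum_const_zero, add_zero, sub_mul,
    ite_mul, one_mul, Finset.sum_sub_distrib, Finset.sum_ite_eq', Finset.mem_univ, if_true]

lemma pos_Wm (a : Fin n → ℤ) (b : Fin m → ℤ) (h : ∀ i j, b j < a i) :
    Pos (Wm (n := n) (m := m)) (Sum.elim a b) := by
  intro s
  rw [pair_Wm]
  have := h s.1 s.2
  omega

lemma pos_ex : ∃ p, Pos (Wm (n := n) (m := m)) p :=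
  ⟨Sum.elim (fun _ => 1) (fun _ => 0), pos_Wm _ _ (fun _ _ => one_pos)⟩

lemma tor_rg {i j : Fin n} (h : i ≠ j) : ∃ p1 p2 : Fin n ⊕ Fin m → ℤ,
    (∀ s s', rg i j s = some s' → pair (Wm s) p1 = 1 ∧ pair (Wm s') p1 = 0 ∧
      pair (Wm s) p2 = 0 ∧ pair (Wm s') p2 = 1) ∧
      ∀ s, rg i j s = none → rg j i s = none → pair (Wm s) p1 = 0 ∧ pair (Wm s) p2 = 0 := by
  refine ⟨Sum.elim (fun r => if r = i then 1 else 0) (fun _ => 0),
    Sum.elim (fun r => if r = j then 1 else 0) (fun _ => 0), ?_, ?_⟩
  · intro s s' hs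
    unfold rg at hs
    split_ifs at hs with h1
    obtain rfl := Option.some.inj hs
    simp [pair_Wm, h1, h, h.symm]
  · rintro ⟨a, b⟩ h1 h2
    simp only [rg] at h1 h2
    have h3 : a ≠ i := by
      intro h; simp [h] at h1
    have h4 : a ≠ j := by
      intro h; simp [h] at h2
    simp [pair_Wm, h3, h4]

/-- number of non-inversions -/
def nin (c : Fin n → Option (Fin m)) : ℕ :=
  (Finset.univ.filter (fun x : Fin n × Fin n => x.1 < x.2 ∧ pos (c x.1) < pos (c x.2))).card

lemma nin_lt (c : Fin n → Option (Fin m)) {i j : Fin n} (hij : (j : ℕ) = i + 1)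
    (h : pos (c i) < pos (c j)) : nin (c ∘ Equiv.swap i j) < nin c := by
  have hne : i ≠ j := by
    intro h'; subst h'; omega
  have hlt : i < j := by rw [Fin.lt_def]; omega
  unfold nin
  apply lt_of_le_of_lt (b := ((Finset.univ.filter (fun x : Fin n × Fin n =>
    x.1 < x.2 ∧ pos (c x.1) < pos (c x.2))).erase (i, j)).card)
  · refine Finset.card_le_card_of_injOn
      (fun x => (Equiv.swap i j x.1, Equiv.swap i j x.2)) ?_ ?_
    · intro x hx
      simp only [Finset.coe_filter, Finset.mem_univ, true_and, Set.mem_setOf_eq,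
        Function.comp_apply] at hx
      simp only [Finset.coe_erase, Finset.coe_filter, Finset.mem_univ, true_and,
        Set.mem_diff, Set.mem_setOf_eq, Set.mem_singleton_iff, Prod.mk.injEq]
      obtain ⟨h1, h2⟩ := hx
      have h3 : ¬ (x.1 = i ∧ x.2 = j) := by
        rintro ⟨h3, h4⟩
        rw [h3, h4, Equiv.swap_apply_left, Equiv.swap_apply_right] at h2
        omega
      refine ⟨⟨?_, h2⟩, ?_⟩
      · -- order
        rw [Fin.lt_def] at h1 ⊢
        by_cases a1 : x.1 = i
        · by_cases a2 : x.2 = j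
          · exact absurd ⟨a1, a2⟩ h3
          · have a3 : x.2 ≠ i := by intro h; rw [h, a1] at h1; omega
            rw [a1, Equiv.swap_apply_left, Equiv.swap_apply_of_ne_of_ne a3 a2]
            have a4 : (x.2 : ℕ) ≠ j := fun h => a2 (Fin.ext h)
            rw [a1] at h1
            omega
        · by_cases a2 : x.1 = j
          · have a3 : x.2 ≠ i := by
              intro h; rw [h, a2] at h1; omega
            have a4 : x.2 ≠ j := by
              intro h; rw [h, a2] at h1; omega
            rw [a2, Equiv.swap_apply_right, Equiv.swap_apply_of_ne_of_ne a3 a4]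
            rw [a2] at h1
            omega
          · rw [Equiv.swap_apply_of_ne_of_ne a1 a2]
            by_cases a3 : x.2 = i
            · rw [a3, Equiv.swap_apply_left]
              rw [a3] at h1
              omega
            · by_cases a4 : x.2 = j
              · rw [a4, Equiv.swap_apply_right]
                rw [a4] at h1
                have a5 : (x.1 : ℕ) ≠ i := fun h => a1 (Fin.ext h)
                omega
              · rw [Equiv.swap_apply_of_ne_of_ne a3 a4]
                exact h1
      · rintro ⟨h4, h5⟩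
        have h6 : x.1 = j := by
          have := congrArg (Equiv.swap i j) h4
          rwa [Equiv.swap_apply_self, Equiv.swap_apply_left] at this
        have h7 : x.2 = i := by
          have := congrArg (Equiv.swap i j) h5
          rwa [Equiv.swap_apply_self, Equiv.swap_apply_right] at this
        rw [h6, h7, Fin.lt_def] at h1
        omega
    · intro x _ y _ hxy
      simp only [Prod.mk.injEq, EmbeddingLike.apply_eq_iff_eq] at hxy
      exact Prod.ext hxy.1 hxy.2
  · apply Finset.card_lt_card
    apply Finset.erase_ssubset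
    simp [hlt, h]

/-- if `c` is not decreasing there is an adjacent ascent -/
lemma exists_asc (c : Fin n → Option (Fin m)) (hc : PInj c) (h : ¬ Dec c) :
    ∃ i j : Fin n, (j : ℕ) = i + 1 ∧ pos (c i) < pos (c j) := by
  by_contra hno
  push Not at hno
  apply h
  -- monotone
  have key : ∀ (d : ℕ) (i i' : Fin n), (i' : ℕ) = i + d → pos (c i') ≤ pos (c i) := by
    intro d
    induction d with
    | zero => intro i i' h; have : i' = i := Fin.ext (by omega); rw [this]
    | succ d ih =>
      intro i i' hd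
      have hlt : (i : ℕ) + d < n := by have := i'.2; omega
      have h1 := ih i ⟨i + d, hlt⟩ rfl
      have h2 := hno ⟨i + d, hlt⟩ i' (by simp; omega)
      exact le_trans h2 h1
  intro i i' hii
  have h1 := key (i' - i) i i' (by rw [Fin.lt_def] at hii; omega)
  rcases lt_or_eq_of_le h1 with h2 | h2
  · exact Or.inl h2
  · right
    rcases hi : c i with _ | a
    · rcases hi' : c i' with _ | a'
      · exact ⟨rfl, rfl⟩
      · rw [hi, hi'] at h2
        simp [pos] at h2
        have := a'.2
        omega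
    · rcases hi' : c i' with _ | a'
      · rw [hi, hi'] at h2
        simp [pos] at h2
        have := a.2
        omega
      · rw [hi, hi'] at h2
        simp [pos] at h2
        have h3 : a' = a := Fin.ext h2
        rw [h3] at hi'
        have := hc i i' a hi hi'
        rw [this] at hii
        exact absurd hii (lt_irrefl _)

lemma pinj_swap (c : Fin n → Option (Fin m)) (hc : PInj c) (i j : Fin n) :
    PInj (c ∘ Equiv.swap i j) := by
  intro a a' b h1 h2
  exact (Equiv.swap i j).injective (hc _ _ b h1 h2)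

lemma swap_lt_of (a : Fin n → ℤ) (b : Fin m → ℤ) (h : ∀ i j, b j < a i) (i j : Fin n) :
    ∀ i' j', b j' < (a ∘ Equiv.swap i j) i' := fun i' j' => h _ _

theorem t_FC (hLVL : S_LVL) (hSTR : S_STRICT) (hROW : S_ROW) (hORB : S_ORB) (hSTEP : S_STEP)
    (hTOP : S_TOP) : S_FC := by
  intro n m
  have main : ∀ (N : ℕ) (c : Fin n → Option (Fin m)), nin c = N → PInj c →
    ∃ (k M : ℕ) (l : List (Fin n × Fin n)) (c0 : Fin n → Option (Fin m)), 0 < M ∧ Adj l ∧
    PInj c0 ∧ Dec c0 ∧ ∀ (a : Fin n → ℤ) (b : Fin m → ℤ), Function.Injective a →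
      (∀ i j, b j < a i) →
      Has k (wt Wm (Sum.elim a b)) (van (Orb c)) ∧ 0 < cl k (wt Wm (Sum.elim a b)) (van (Orb c)) ∧
      (M : ℝ) * cl k (wt Wm (Sum.elim a b)) (van (Orb c)) =
        dw l (fun a' => ∏ s ∈ Zb c0, ((a' s.1 : ℝ) - b s.2)) a := by
    intro N
    induction N using Nat.strong_induction_on with
    | _ N ih =>
      intro c hN hc
      by_cases hD : Dec c
      · refine ⟨(Zb c).card, 1, [], c, one_pos, by simp [Adj], hc, hD, ?_⟩
        intro a b ha hab
        obtain ⟨h1, h2⟩ := hTOP n m c hc hD _ (pos_Wm a b hab)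
        refine ⟨h1, ?_, ?_⟩
        · rw [h2]
          apply Finset.prod_pos
          intro s _
          have := pos_Wm a b hab s
          exact_mod_cast this
        · rw [h2]
          simp only [Nat.cast_one, one_mul, dw, List.foldr_nil]
          apply Finset.prod_congr rfl
          intro s _
          rw [pair_Wm]
          push_cast
          ring
      · obtain ⟨i, j, hij, hlt⟩ := exists_asc c hc hD
        have hne : i ≠ j := by intro h; subst h; omega
        have hijlt : i < j := by rw [Fin.lt_def]; omega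
        have hpc := pinj_swap c hc i j
        obtain ⟨k, M, l, c0, hM, hadj, hc0, hdec, hF⟩ := ih _ (by
          rw [← hN]; exact nin_lt c hij hlt) (c ∘ Equiv.swap i j) rfl hpc
        obtain ⟨hpr, htg, hB⟩ := hORB n m _ hpc
        obtain ⟨hs, hz⟩ := hSTEP n m (c ∘ Equiv.swap i j) i j hpc hij (by
          simp only [Function.comp_apply, Equiv.swap_apply_left, Equiv.swap_apply_right]
          exact hlt)
        have hcc : (c ∘ Equiv.swap i j) ∘ Equiv.swap i j = c := by
          funext r; simp
        rw [hcc] at hz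
        obtain ⟨m', hm', hR⟩ := row_step hLVL hSTR hROW Wm (rg i j) (rg j i) (rsw i j)
          (ra i j) _ _ (flat_rg hne) (flat_rg hne.symm) (opp_rg hne) (opwt_rg hne) hpr htg hs
          (hB.1 i j hijlt) pos_ex (tor_rg hne) hz
        refine ⟨k - 1, M * m', (i, j) :: l, c0, Nat.mul_pos hM hm', ?_, hc0, hdec, ?_⟩
        · intro x hx
          rcases List.mem_cons.1 hx with rfl | hx
          · exact hij
          · exact hadj x hx
        · intro a b ha hab
          have ha' : Function.Injective (a ∘ Equiv.swap i j) :=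
            ha.comp (Equiv.swap i j).injective
          obtain ⟨f1, f2, f3⟩ := hF a b ha hab
          obtain ⟨f4, f5, f6⟩ := hF (a ∘ Equiv.swap i j) b ha' (swap_lt_of a b hab i j)
          obtain ⟨-, g1, g2, g3⟩ := hR (Sum.elim a b) (Sum.elim (a ∘ Equiv.swap i j) b)
            (pos_Wm a b hab) (pos_Wm _ b (swap_lt_of a b hab i j))
            (by intro s; rw [pair_Wm, pair_Wm]; simp [rsw])
            (by intro s; rw [pair_Wm, pair_Wm]; simp [rsw])
            (by rw [pair_ra, pair_ra]; simp)
            (by rw [pair_ra]; intro h; exact hne (ha (by omega))) k f1 f2 f4 f5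
          refine ⟨g1, g2, ?_⟩
          push_cast
          rw [mul_assoc, g3, pair_ra]
          simp only [dw, List.foldr_cons, dn]
          simp only [dw] at f3 f6
          rw [← f3, ← f6]
          push_cast
          ring
  intro c hc
  exact main _ c rfl hc

end fc

end Pool.Agent.KIR
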