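import Pool.Agent.KIR.FC
set_option autoImplicit false
set_option linter.all false
namespace Pool.Agent.KIR
open MvPolynomial Filter Topology

section fuv
variable {n : ℕ}

/-- reflection in the block `B` of columns -/
def bf (B : ℕ → Prop) [DecidablePred B] (i j : Fin n) (s : Fin n × Fin (n + n)) :
    Fin n × Fin (n + n) := if B s.2 then (Equiv.swap i j s.1, s.2) else s

lemma bf_inv (B : ℕ → Prop) [DecidablePred B] (i j : Fin n) :
    Function.Involutive (bf B i j) := by
  rintro ⟨a, c⟩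
  by_cases h : B c
  · simp [bf, h]
  · simp [bf, h]

def bsw (B : ℕ → Prop) [DecidablePred B] (i j : Fin n) : Equiv.Perm (Fin n × Fin (n + n)) :=
  (bf_inv B i j).toPerm

/-- row operation in a block -/
def rgB (B : ℕ → Prop) [DecidablePred B] (a b : Fin n) :
    Fin n × Fin (n + n) → Option (Fin n × Fin (n + n)) :=
  fun s => if s.1 = a ∧ B s.2 then some (b, s.2) else none

lemma rgC_eq (a b : Fin n) : rgC a b = rgB (fun c => c < n) a b := rfl
lemma rgA_eq (a b : Fin n) : rgA a b = rgB (fun c => ¬ c < n) a b := rfl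

lemma flat_rgB (B : ℕ → Prop) [DecidablePred B] {a b : Fin n} (h : a ≠ b) : Flat (rgB B a b) := by
  intro s s' hs
  unfold rgB at hs ⊢
  split_ifs at hs with h1
  obtain rfl := Option.some.inj hs
  simp [h.symm]

lemma opp_rgB (B : ℕ → Prop) [DecidablePred B] {i j : Fin n} (h : i ≠ j) :
    Opp (rgB B i j) (rgB B j i) (bsw B i j) := by
  refine ⟨?_, ?_, ?_⟩
  · rintro ⟨a, b⟩ ⟨a', b'⟩
    simp only [rgB]
    constructor
    · intro hh
      split_ifs at hh with h1
      have := Option.some.inj hh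
      simp only [Prod.mk.injEq] at this
      obtain ⟨rfl, rfl⟩ := this
      simp [h1]
    · intro hh
      split_ifs at hh with h1
      have := Option.some.inj hh
      simp only [Prod.mk.injEq] at this
      obtain ⟨rfl, rfl⟩ := this
      simp [h1]
  · rintro ⟨a, b⟩ ⟨a', b'⟩ hh
    simp only [rgB] at hh
    split_ifs at hh with h1
    have := Option.some.inj hh
    simp only [Prod.mk.injEq] at this
    obtain ⟨rfl, rfl⟩ := this
    simp [bsw, bf, h1, Function.Involutive.coe_toPerm]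
  · rintro ⟨a, b⟩ h1 h2
    simp only [rgB] at h1 h2
    by_cases hb : B b
    · have h3 : a ≠ i := by
        intro h; simp [h, hb] at h1
      have h4 : a ≠ j := by
        intro h; simp [h, hb] at h2
      simp [bsw, bf, Equiv.swap_apply_of_ne_of_ne h3 h4]
    · simp [bsw, bf, hb]

lemma pair_W2 (s : Fin n × Fin (n + n)) (a a' : Fin n → ℤ) (b : Fin (n + n) → ℤ) :
    pair (W2 s) (Sum.elim (Sum.elim a a') b) =
      (if (s.2 : ℕ) < n then a s.1 else a' s.1) - b s.2 := by
  unfold pair W2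
  rw [Fintype.sum_sum_type, Fintype.sum_sum_type]
  by_cases h : (s.2 : ℕ) < n
  · simp [h, Sum.elim_inl, Sum.elim_inr, ite_mul, one_mul, zero_mul, Finset.sum_ite_eq',
      Finset.mem_univ, if_true, neg_mul]
    ring
  · simp [h, Sum.elim_inl, Sum.elim_inr, ite_mul, one_mul, zero_mul, Finset.sum_ite_eq',
      Finset.mem_univ, if_true, neg_mul]
    ring

lemma pos_W2 (a a' b b2 : Fin n → ℤ) (h : ∀ i j, b j < a i) (h' : ∀ i j, b2 j < a' i) :
    Pos (W2 (n := n)) (Sum.elim (Sum.elim a a') (Fin.append b b2)) := by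
  rintro ⟨r, c⟩
  rw [pair_W2]
  refine Fin.addCases (fun j => ?_) (fun j => ?_) c
  · simp only [Fin.val_castAdd, j.2, if_true, Fin.append_left]
    have := h r j
    omega
  · have : ¬ (n + (j : ℕ) < n) := by omega
    simp only [Fin.val_natAdd, this, if_false, Fin.append_right]
    have := h' r j
    omega

lemma pos_ex2 : ∃ p, Pos (W2 (n := n)) p :=
  ⟨_, pos_W2 (fun _ => 1) (fun _ => 1) (fun _ => 0) (fun _ => 0) (fun _ _ => one_pos)
    (fun _ _ => one_pos)⟩

def dlt (i j : Fin n) : Fin n → ℤ := fun r => (if r = i then 1 else 0) - (if r = j then 1 else 0)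

/-- roots -/
def rC (i j : Fin n) : (Fin n ⊕ Fin n) ⊕ Fin (n + n) → ℤ :=
  Sum.elim (Sum.elim (dlt i j) (fun _ => 0)) (fun _ => 0)
def rA (i j : Fin n) : (Fin n ⊕ Fin n) ⊕ Fin (n + n) → ℤ :=
  Sum.elim (Sum.elim (fun _ => 0) (dlt i j)) (fun _ => 0)

lemma opwt_rC {i j : Fin n} (h : i ≠ j) : OpWt (W2 (n := n)) (rgC i j) (rC i j) := by
  intro s s' hs
  unfold rgC at hs
  split_ifs at hs with h1
  obtain rfl := Option.some.inj hs
  funext r
  rcases r with (r | r) | c
  · simp only [W2, rC, dlt, Sum.elim_inl, Pi.add_apply, h1, and_true]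
    ring
  · simp [W2, rC, h1]
  · simp [W2, rC]

lemma opwt_rA {i j : Fin n} (h : i ≠ j) : OpWt (W2 (n := n)) (rgA i j) (rA i j) := by
  intro s s' hs
  unfold rgA at hs
  split_ifs at hs with h1
  obtain rfl := Option.some.inj hs
  funext r
  rcases r with (r | r) | c
  · simp [W2, rA, h1]
  · simp only [W2, rA, dlt, Sum.elim_inl, Sum.elim_inr, Pi.add_apply, h1, and_true]
    simp
  · simp [W2, rA]

lemma sum_dlt (i j : Fin n) (a : Fin n → ℤ) : ∑ r, dlt i j r * a r = a i - a j := by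
  simp only [dlt, sub_mul, ite_mul, one_mul, zero_mul, Finset.sum_sub_distrib,
    Finset.sum_ite_eq', Finset.mem_univ, if_true]

lemma pair_rC (i j : Fin n) (a a' : Fin n → ℤ) (b : Fin (n + n) → ℤ) :
    pair (rC i j) (Sum.elim (Sum.elim a a') b) = a i - a j := by
  unfold pair rC
  rw [Fintype.sum_sum_type, Fintype.sum_sum_type]
  simp only [Sum.elim_inl, Sum.elim_inr, zero_mul, Finset.sum_const_zero, add_zero, sum_dlt]

lemma pair_rA (i j : Fin n) (a a' : Fin n → ℤ) (b : Fin (n + n) → ℤ) :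
    pair (rA i j) (Sum.elim (Sum.elim a a') b) = a' i - a' j := by
  unfold pair rA
  rw [Fintype.sum_sum_type, Fintype.sum_sum_type]
  simp only [Sum.elim_inl, Sum.elim_inr, zero_mul, Finset.sum_const_zero, add_zero, zero_add,
    sum_dlt]

lemma tor_rC {i j : Fin n} (h : i ≠ j) : ∃ p1 p2 : (Fin n ⊕ Fin n) ⊕ Fin (n + n) → ℤ,
    (∀ s s', rgC i j s = some s' → pair (W2 s) p1 = 1 ∧ pair (W2 s') p1 = 0 ∧
      pair (W2 s) p2 = 0 ∧ pair (W2 s') p2 = 1) ∧
      ∀ s, rgC i j s = none → rgC j i s = none → pair (W2 s) p1 = 0 ∧ pair (W2 s) p2 = 0 := by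
  refine ⟨Sum.elim (Sum.elim (fun r => if r = i then 1 else 0) (fun _ => 0)) (fun _ => 0),
    Sum.elim (Sum.elim (fun r => if r = j then 1 else 0) (fun _ => 0)) (fun _ => 0), ?_, ?_⟩
  · intro s s' hs
    unfold rgC at hs
    split_ifs at hs with h1
    obtain rfl := Option.some.inj hs
    simp [pair_W2, h1, h, h.symm]
  · rintro ⟨a, b⟩ h1 h2
    simp only [rgC] at h1 h2
    by_cases hb : (b : ℕ) < n
    · have h3 : a ≠ i := by
        intro h; simp [h, hb] at h1
      have h4 : a ≠ j := by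
        intro h; simp [h, hb] at h2
      simp [pair_W2, h3, h4]
    · simp [pair_W2, hb]

lemma tor_rA {i j : Fin n} (h : i ≠ j) : ∃ p1 p2 : (Fin n ⊕ Fin n) ⊕ Fin (n + n) → ℤ,
    (∀ s s', rgA i j s = some s' → pair (W2 s) p1 = 1 ∧ pair (W2 s') p1 = 0 ∧
      pair (W2 s) p2 = 0 ∧ pair (W2 s') p2 = 1) ∧
      ∀ s, rgA i j s = none → rgA j i s = none → pair (W2 s) p1 = 0 ∧ pair (W2 s) p2 = 0 := by
  refine ⟨Sum.elim (Sum.elim (fun _ => 0) (fun r => if r = i then 1 else 0)) (fun _ => 0),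
    Sum.elim (Sum.elim (fun _ => 0) (fun r => if r = j then 1 else 0)) (fun _ => 0), ?_, ?_⟩
  · intro s s' hs
    unfold rgA at hs
    split_ifs at hs with h1
    obtain rfl := Option.some.inj hs
    obtain ⟨h1, h2⟩ := h1
    simp [pair_W2, h1, h2, h, h.symm]
  · rintro ⟨a, b⟩ h1 h2
    simp only [rgA] at h1 h2
    by_cases hb : (b : ℕ) < n
    · simp [pair_W2, hb]
    · have h3 : a ≠ i := by
        intro h; apply absurd h1; simp [h, hb]
      have h4 : a ≠ j := by
        intro h; apply absurd h2; simp [h, hb]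
      simp [pair_W2, h3, h4]

lemma bswC (i j : Fin n) (a a' : Fin n → ℤ) (b : Fin (n + n) → ℤ) (s : Fin n × Fin (n + n)) :
    pair (W2 (bsw (fun c => c < n) i j s)) (Sum.elim (Sum.elim (a ∘ Equiv.swap i j) a') b) =
      pair (W2 s) (Sum.elim (Sum.elim a a') b) := by
  rw [pair_W2, pair_W2]
  by_cases h : (s.2 : ℕ) < n
  · simp [bsw, bf, h]
  · simp [bsw, bf, h]

lemma bswC' (i j : Fin n) (a a' : Fin n → ℤ) (b : Fin (n + n) → ℤ) (s : Fin n × Fin (n + n)) :
    pair (W2 (bsw (fun c => c < n) i j s)) (Sum.elim (Sum.elim a a') b) =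
      pair (W2 s) (Sum.elim (Sum.elim (a ∘ Equiv.swap i j) a') b) := by
  rw [pair_W2, pair_W2]
  by_cases h : (s.2 : ℕ) < n
  · simp [bsw, bf, h]
  · simp [bsw, bf, h]

lemma bswA (i j : Fin n) (a a' : Fin n → ℤ) (b : Fin (n + n) → ℤ) (s : Fin n × Fin (n + n)) :
    pair (W2 (bsw (fun c => ¬ c < n) i j s)) (Sum.elim (Sum.elim a (a' ∘ Equiv.swap i j)) b) =
      pair (W2 s) (Sum.elim (Sum.elim a a') b) := by
  rw [pair_W2, pair_W2]
  by_cases h : (s.2 : ℕ) < n
  · simp [bsw, bf, h]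
  · have h' : n ≤ (s.2 : ℕ) := by omega
    simp [bsw, bf, h, h']

lemma bswA' (i j : Fin n) (a a' : Fin n → ℤ) (b : Fin (n + n) → ℤ) (s : Fin n × Fin (n + n)) :
    pair (W2 (bsw (fun c => ¬ c < n) i j s)) (Sum.elim (Sum.elim a a') b) =
      pair (W2 s) (Sum.elim (Sum.elim a (a' ∘ Equiv.swap i j)) b) := by
  rw [pair_W2, pair_W2]
  by_cases h : (s.2 : ℕ) < n
  · simp [bsw, bf, h]
  · have h' : n ≤ (s.2 : ℕ) := by omega
    simp [bsw, bf, h, h']

/-- the induction statement -/
def HH (Sn : Equiv.Perm (Fin n) → (Fin n → ℤ) → (Fin n → ℤ) → ℝ) (v u : Equiv.Perm (Fin n)) :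
    Prop :=
  ∃ k M : ℕ, 0 < M ∧ ∀ a a' b b2 : Fin n → ℤ, Function.Injective a → Function.Injective a' →
    (∀ i j, b j < a i) → (∀ i j, b2 j < a' i) →
    Has k (wt W2 (Sum.elim (Sum.elim a a') (Fin.append b b2)))
      (van (Orb2 (fun i => some (v i)) (fun i => some (u i)))) ∧
    0 < cl k (wt W2 (Sum.elim (Sum.elim a a') (Fin.append b b2)))
      (van (Orb2 (fun i => some (v i)) (fun i => some (u i)))) ∧
    (M : ℝ) * cl k (wt W2 (Sum.elim (Sum.elim a a') (Fin.append b b2)))
      (van (Orb2 (fun i => some (v i)) (fun i => some (u i)))) = Sn u b2 a' * Sn v b a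

lemma pinj_perm (v : Equiv.Perm (Fin n)) : PInj (fun i => some (v i)) := by
  intro i i' j h1 h2
  have h3 := Option.some.inj h1
  have h4 := Option.some.inj h2
  exact v.injective (h3.trans h4.symm)

lemma comp_swap_perm (v : Equiv.Perm (Fin n)) (i j : Fin n) :
    (fun r => some ((v * Equiv.swap i j) r)) ∘ Equiv.swap i j = fun r => some (v r) := by
  funext r; simp

lemma HH_top (hTOP2 : S_TOP2) (Sn : Equiv.Perm (Fin n) → (Fin n → ℤ) → (Fin n → ℤ) → ℝ)
    (hSn : IsSch Sn) : HH Sn Fin.revPerm Fin.revPerm := by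
  refine ⟨n * (n - 1), 1, one_pos, ?_⟩
  intro a a' b b2 _ _ hab hab'
  have hpos := pos_W2 a a' b b2 hab hab'
  obtain ⟨h1, h2⟩ := hTOP2 n _ hpos
  refine ⟨h1, ?_, ?_⟩
  · rw [h2]
    apply Finset.prod_pos
    intro s _
    exact_mod_cast hpos s
  · rw [h2, hSn.1, hSn.1, Nat.cast_one, one_mul]
    rw [Finset.prod_filter, Fintype.prod_prod_type, Finset.prod_filter, Fintype.prod_prod_type,
      Finset.prod_filter, Fintype.prod_prod_type, mul_comm, ← Finset.prod_mul_distrib]
    apply Finset.prod_congr rfl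
    intro i _
    rw [Fin.prod_univ_add]
    congr 1
    · apply Finset.prod_congr rfl
      intro j _
      rw [pair_W2]
      have h3 := j.2
      simp only [Fin.val_castAdd, h3, if_true, Fin.append_left, true_and, not_le.2 h3,
        false_and, or_false]
      split_ifs <;> simp
    · apply Finset.prod_congr rfl
      intro j _
      rw [pair_W2]
      have h3 : ¬ (n + (j : ℕ) < n) := by omega
      have h4 : ((i : ℕ) + (n + j) + 1 < n + n) = ((i : ℕ) + j + 1 < n) := by
        apply propext; constructor <;> intro h <;> omega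
      simp only [Fin.val_natAdd, h3, if_false, Fin.append_right, false_and, false_or,
        Nat.le_add_right, true_and, h4]
      split_ifs <;> simp

lemma stepC (hLVL : S_LVL) (hSTR : S_STRICT) (hROW : S_ROW) (hORB2 : S_ORB2) (hSTEP2 : S_STEP2)
    (Sn : Equiv.Perm (Fin n) → (Fin n → ℤ) → (Fin n → ℤ) → ℝ) (hSn : IsSch Sn)
    (v u : Equiv.Perm (Fin n)) (i j : Fin n) (hij : (j : ℕ) = i + 1) (hlt : v i < v j)
    (H : HH Sn (v * Equiv.swap i j) u) : HH Sn v u := by
  have hne : i ≠ j := by intro h; subst h; omega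
  have hijlt : i < j := by rw [Fin.lt_def]; omega
  obtain ⟨k, M, hM, hF⟩ := H
  have p1 := pinj_perm (v * Equiv.swap i j)
  have p2 := pinj_perm u
  obtain ⟨hpr, htg, -, hst, -⟩ := hORB2 n _ _ p1 p2
  obtain ⟨hs, hz⟩ := (hSTEP2 n _ _ i j p1 p2 hij).1 (by
    simp only [pos, Option.elim_some, Equiv.Perm.mul_apply, Equiv.swap_apply_left,
      Equiv.swap_apply_right]
    exact hlt)
  rw [comp_swap_perm] at hz
  obtain ⟨m', hm', hR⟩ := row_step hLVL hSTR hROW W2 (rgC i j) (rgC j i)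
    (bsw (fun c => c < n) i j) (rC i j) _ _ (flat_rgB (fun c => c < n) hne)
    (flat_rgB (fun c => c < n) hne.symm) (opp_rgB (fun c => c < n) hne) (opwt_rC hne) hpr htg hs (hst i j hijlt).1 pos_ex2 (tor_rC hne) hz
  refine ⟨k - 1, M * m', Nat.mul_pos hM hm', ?_⟩
  intro a a' b b2 ha ha' hab hab'
  have hsa : Function.Injective (a ∘ Equiv.swap i j) := ha.comp (Equiv.swap i j).injective
  have hsb : ∀ i' j', b j' < (a ∘ Equiv.swap i j) i' := fun i' j' => hab _ _
  obtain ⟨f1, f2, f3⟩ := hF a a' b b2 ha ha' hab hab'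
  obtain ⟨f4, f5, f6⟩ := hF (a ∘ Equiv.swap i j) a' b b2 hsa ha' hsb hab'
  obtain ⟨-, g1, g2, g3⟩ := hR _ _ (pos_W2 a a' b b2 hab hab')
    (pos_W2 (a ∘ Equiv.swap i j) a' b b2 hsb hab')
    (bswC i j a a' _) (bswC' i j a a' _)
    (by rw [pair_rC, pair_rC]; simp)
    (by rw [pair_rC]; intro h; exact hne (ha (by omega))) k f1 f2 f4 f5
  refine ⟨g1, g2, ?_⟩
  have h5 : Sn v b a = dn i j (Sn (v * Equiv.swap i j) b) a := by
    have := hSn.2 (v * Equiv.swap i j) i j hij (by
      simp only [Equiv.Perm.mul_apply, Equiv.swap_apply_left, Equiv.swap_apply_right]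
      exact hlt) b a ha
    rw [← this]
    congr 1
    ext r; simp
  push_cast
  rw [mul_assoc, g3, pair_rC, h5]
  simp only [dn]
  have e1 : (M : ℝ) * (cl k (wt W2 (Sum.elim (Sum.elim a a') (Fin.append b b2)))
      (van (Orb2 (fun i_1 => some ((v * Equiv.swap i j) i_1)) fun i => some (u i))) -
      cl k (wt W2 (Sum.elim (Sum.elim (a ∘ Equiv.swap i j) a') (Fin.append b b2)))
      (van (Orb2 (fun i_1 => some ((v * Equiv.swap i j) i_1)) fun i => some (u i)))) =
      Sn u b2 a' * (Sn (v * Equiv.swap i j) b a - Sn (v * Equiv.swap i j) b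
        (a ∘ Equiv.swap i j)) := by
    rw [mul_sub, f3, f6]; ring
  rw [← mul_div_assoc, e1]
  push_cast
  ring

lemma stepA (hLVL : S_LVL) (hSTR : S_STRICT) (hROW : S_ROW) (hORB2 : S_ORB2) (hSTEP2 : S_STEP2)
    (Sn : Equiv.Perm (Fin n) → (Fin n → ℤ) → (Fin n → ℤ) → ℝ) (hSn : IsSch Sn)
    (v u : Equiv.Perm (Fin n)) (i j : Fin n) (hij : (j : ℕ) = i + 1) (hlt : u i < u j)
    (H : HH Sn v (u * Equiv.swap i j)) : HH Sn v u := by
  have hne : i ≠ j := by intro h; subst h; omega
  have hijlt : i < j := by rw [Fin.lt_def]; omega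
  obtain ⟨k, M, hM, hF⟩ := H
  have p1 := pinj_perm v
  have p2 := pinj_perm (u * Equiv.swap i j)
  obtain ⟨hpr, htg, -, hst, -⟩ := hORB2 n _ _ p1 p2
  obtain ⟨hs, hz⟩ := (hSTEP2 n _ _ i j p1 p2 hij).2 (by
    simp only [pos, Option.elim_some, Equiv.Perm.mul_apply, Equiv.swap_apply_left,
      Equiv.swap_apply_right]
    exact hlt)
  rw [comp_swap_perm] at hz
  obtain ⟨m', hm', hR⟩ := row_step hLVL hSTR hROW W2 (rgA i j) (rgA j i)
    (bsw (fun c => ¬ c < n) i j) (rA i j) _ _ (flat_rgB (fun c => ¬ c < n) hne)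
    (flat_rgB (fun c => ¬ c < n) hne.symm) (opp_rgB (fun c => ¬ c < n) hne) (opwt_rA hne) hpr htg hs (hst i j hijlt).2.1 pos_ex2 (tor_rA hne) hz
  refine ⟨k - 1, M * m', Nat.mul_pos hM hm', ?_⟩
  intro a a' b b2 ha ha' hab hab'
  have hsa : Function.Injective (a' ∘ Equiv.swap i j) := ha'.comp (Equiv.swap i j).injective
  have hsb : ∀ i' j', b2 j' < (a' ∘ Equiv.swap i j) i' := fun i' j' => hab' _ _
  obtain ⟨f1, f2, f3⟩ := hF a a' b b2 ha ha' hab hab'
  obtain ⟨f4, f5, f6⟩ := hF a (a' ∘ Equiv.swap i j) b b2 ha hsa hab hsb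
  obtain ⟨-, g1, g2, g3⟩ := hR _ _ (pos_W2 a a' b b2 hab hab')
    (pos_W2 a (a' ∘ Equiv.swap i j) b b2 hab hsb)
    (bswA i j a a' _) (bswA' i j a a' _)
    (by rw [pair_rA, pair_rA]; simp)
    (by rw [pair_rA]; intro h; exact hne (ha' (by omega))) k f1 f2 f4 f5
  refine ⟨g1, g2, ?_⟩
  have h5 : Sn u b2 a' = dn i j (Sn (u * Equiv.swap i j) b2) a' := by
    have := hSn.2 (u * Equiv.swap i j) i j hij (by
      simp only [Equiv.Perm.mul_apply, Equiv.swap_apply_left, Equiv.swap_apply_right]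
      exact hlt) b2 a' ha'
    rw [← this]
    congr 1
    ext r; simp
  push_cast
  rw [mul_assoc, g3, pair_rA, h5]
  simp only [dn]
  have e1 : (M : ℝ) * (cl k (wt W2 (Sum.elim (Sum.elim a a') (Fin.append b b2)))
      (van (Orb2 (fun i => some (v i)) fun i_1 => some ((u * Equiv.swap i j) i_1))) -
      cl k (wt W2 (Sum.elim (Sum.elim a (a' ∘ Equiv.swap i j)) (Fin.append b b2)))
      (van (Orb2 (fun i => some (v i)) fun i_1 => some ((u * Equiv.swap i j) i_1)))) =
      (Sn (u * Equiv.swap i j) b2 a' - Sn (u * Equiv.swap i j) b2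
        (a' ∘ Equiv.swap i j)) * Sn v b a := by
    rw [mul_sub, f3, f6]; ring
  rw [← mul_div_assoc, e1]
  push_cast
  ring

lemma eq_rev (v : Equiv.Perm (Fin n)) (h : Dec (fun i => some (v i))) : v = Fin.revPerm := by
  have h1 : ∀ i i' : Fin n, i < i' → v i' < v i := by
    intro i i' hii
    rcases h i i' hii with h2 | h2
    · simpa [pos] using h2
    · simp at h2
  have h2 : StrictMono (fun i : Fin n => v (Fin.rev i)) := by
    intro i i' hii
    exact h1 _ _ (Fin.rev_lt_rev.2 hii)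
  have h3 : ∀ i, i ≤ v (Fin.rev i) := fun i => h2.le_apply
  have h4 : ∀ i, v (Fin.rev i) ≤ i := by
    intro i
    by_contra hlt
    rw [not_le] at hlt
    -- the inverse
    have h5 : StrictMono (fun i : Fin n => Fin.rev (v.symm i)) := by
      intro x y hxy
      rcases lt_trichotomy (v.symm x) (v.symm y) with h | h | h
      · have := h1 _ _ h
        simp only [Equiv.apply_symm_apply] at this
        exact absurd hxy this.not_gt
      · have := congrArg v h
        simp only [Equiv.apply_symm_apply] at this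
        exact absurd hxy (by rw [this]; exact lt_irrefl _)
      · exact Fin.rev_lt_rev.2 h
    have h6 := h5.le_apply (x := v (Fin.rev i))
    simp only [Equiv.symm_apply_apply, Fin.rev_rev] at h6
    exact absurd hlt h6.not_gt
  apply Equiv.ext
  intro i
  have h7 := le_antisymm (h4 (Fin.rev i)) (h3 (Fin.rev i))
  rw [Fin.rev_rev] at h7
  rw [h7, Fin.revPerm_apply]

theorem t_FUV (hLVL : S_LVL) (hSTR : S_STRICT) (hROW : S_ROW) (hORB2 : S_ORB2)
    (hSTEP2 : S_STEP2) (hTOP2 : S_TOP2) : S_FUV := by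
  intro n Sn hSn
  have s1 : ∀ (N : ℕ) (v : Equiv.Perm (Fin n)), nin (fun i => some (v i)) = N →
      HH Sn v Fin.revPerm := by
    intro N
    induction N using Nat.strong_induction_on with
    | _ N ih =>
      intro v hN
      by_cases hD : Dec (fun i => some (v i))
      · rw [eq_rev v hD]
        exact HH_top hTOP2 Sn hSn
      · obtain ⟨i, j, hij, hlt⟩ := exists_asc _ (pinj_perm v) hD
        refine stepC hLVL hSTR hROW hORB2 hSTEP2 Sn hSn v _ i j hij (by simpa [pos] using hlt) ?_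
        refine ih _ ?_ _ rfl
        rw [← hN]
        have := nin_lt (fun i => some (v i)) hij hlt
        convert this using 2
        funext r; simp
  have s2 : ∀ (N : ℕ) (v u : Equiv.Perm (Fin n)), nin (fun i => some (u i)) = N →
      HH Sn v u := by
    intro N
    induction N using Nat.strong_induction_on with
    | _ N ih =>
      intro v u hN
      by_cases hD : Dec (fun i => some (u i))
      · rw [eq_rev u hD]
        exact s1 _ v rfl
      · obtain ⟨i, j, hij, hlt⟩ := exists_asc _ (pinj_perm u) hD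
        refine stepA hLVL hSTR hROW hORB2 hSTEP2 Sn hSn v _ i j hij (by simpa [pos] using hlt) ?_
        refine ih _ ?_ _ _ rfl
        rw [← hN]
        have := nin_lt (fun i => some (u i)) hij hlt
        convert this using 2
        funext r; simp
  intro u v
  obtain ⟨hpr, -, htg, hst, hcol⟩ := hORB2 n _ _ (pinj_perm v) (pinj_perm u)
  refine ⟨hpr, htg, fun a b h => (hst a b h).2.2, fun a b h => (hcol a b h).1,
    fun a b h => (hcol a b h).2, ?_⟩
  obtain ⟨k, M, hM, h⟩ := s2 _ v u rfl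
  refine ⟨k, M, hM, ?_⟩
  intro a b ha h0 hab
  obtain ⟨h1, -, h3⟩ := h a a b (fun _ => 0) ha ha hab (fun i _ => h0 i)
  have hw : wt W2 (Sum.elim (Sum.elim a a) (Fin.append b (fun _ => (0 : ℤ)))) =
      wt Wm (par a b) := by
    funext s
    unfold wt par
    rw [pair_W2, pair_Wm]
    simp
  rw [hw] at h1 h3
  exact ⟨h1, h3⟩

end fuv

end Pool.Agent.KIR
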