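import Pool.Agent.KIR.GeoFinal
import Pool.Agent.KIR.S4b.CNT
import Pool.Agent.KIR.S4b.HSV
import Pool.Agent.KIR.S4b.LIN
import Pool.Agent.KIR.S4b.MNR
import Pool.Agent.KIR.S4b.OPP
import Pool.Agent.KIR.S4b.OPR
import Pool.Agent.KIR.S4b.OPU
import Pool.Agent.KIR.S4b.ORB
import Pool.Agent.KIR.S4b.ORB2
import Pool.Agent.KIR.S4b.OST
import Pool.Agent.KIR.S4b.OTO
import Pool.Agent.KIR.S4b.PAR
import Pool.Agent.KIR.S4b.PRD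
import Pool.Agent.KIR.S4b.STB
import Pool.Agent.KIR.S4b.STEP
import Pool.Agent.KIR.S4b.STEP2
import Pool.Agent.KIR.S4b.TOP
import Pool.Agent.KIR.S4b.TOP2
import Pool.Agent.KIR.S4b.TOR
import Pool.Agent.KIR.S4b.TPV
import Pool.Agent.KIR.S6.ASM
import Pool.Agent.KIR.S6.DEN
import Pool.Agent.KIR.S6.DWE
import Pool.Agent.KIR.S6.FCV
import Pool.Agent.KIR.S6.GBV
import Pool.Agent.KIR.S6.GZ
import Pool.Agent.KIR.S6.INVA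
import Pool.Agent.KIR.S6.INVB
import Pool.Agent.KIR.S6.OPA
import Pool.Agent.KIR.S6.OPB
import Pool.Agent.KIR.S6.OPC
import Pool.Agent.KIR.S6.PAIR
import Pool.Agent.KIR.S6.SCH
import Pool.Agent.KIR.S6.TOP
import Pool.Agent.KIR.S6.VAN
/-!
# KIR: everything together
-/
set_option autoImplicit false
namespace Pool.Agent.KIR

open S4b in
theorem f_GEO : S_GEO := by
  have hHSV : S_HSV := S4b.t_HSV s_VAR
  exact geo_of (S4b.t_ORB S4b.t_PAR S4b.t_TOR S4b.t_STB S4b.t_OPR S4b.t_OTO S4b.t_OST)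
    (S4b.t_STEP S4b.t_PAR S4b.t_STB S4b.t_OPP S4b.t_OPU S4b.t_MNR)
    (S4b.t_TOP S4b.t_PAR S4b.t_LIN hHSV S4b.t_TPV)
    (S4b.t_ORB2 S4b.t_PAR S4b.t_TOR S4b.t_STB S4b.t_PRD S4b.t_OPR S4b.t_OTO S4b.t_OST)
    (S4b.t_STEP2 S4b.t_PAR S4b.t_STB S4b.t_PRD S4b.t_OPR S4b.t_OPP S4b.t_OPU S4b.t_MNR)
    (S4b.t_TOP2 S4b.t_PAR S4b.t_PRD S4b.t_LIN hHSV S4b.t_TPV S4b.t_CNT)

theorem f_OPA : S6.S_OPA := S6.t_OPA S6.t_INVA S6.t_INVB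
theorem f_OPB : S6.S_OPB := S6.t_OPB S6.t_INVA S6.t_INVB f_OPA
theorem f_OPC : S6.S_OPC := S6.t_OPC S6.t_INVA S6.t_INVB f_OPA
theorem f_VAN : S6.S_VAN := S6.t_VAN S6.t_INVA S6.t_INVB f_OPA

theorem f_ALG : S_ALG :=
  S6.alg f_OPA f_OPB f_OPC f_VAN S6.t_FCV
    (S6.t_PAIR S6.t_INVB f_OPB f_VAN (S6.t_TOP S6.t_INVB f_OPA f_OPC) S6.t_GBV)
    (S6.t_SCH S6.t_INVA f_OPA) (S6.t_DWE f_OPA) S6.t_DEN S6.t_GZ

theorem final : S_FROZEN := f_ALG f_GEO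

end Pool.Agent.KIR
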