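import Pool.Agent.KIR.Defs
set_option autoImplicit false
namespace Pool.Agent.KIR
open MvPolynomial Filter Topology

lemma pos_par {n : ℕ} (a : Fin n → ℤ) (b' : Fin (n + n) → ℤ) (h : ∀ i j, b' j < a i) :
    Pos (Wm (n := n) (m := n + n)) (Sum.elim a b') := by
  intro s
  unfold pair Wm
  rw [Fintype.sum_sum_type]
  simp only [Sum.elim_inl, Sum.elim_inr, ite_mul, one_mul, zero_mul, Finset.sum_ite_eq',
    Finset.mem_univ, if_true, neg_mul]
  have := h s.1 s.2
  omega

lemma append_lt {n : ℕ} (a b : Fin n → ℤ) (ha : ∀ i, 0 < a i) (h : ∀ i j, b j < a i) :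
    ∀ (i : Fin n) (j : Fin (n + n)), (Fin.append b (fun _ => (0 : ℤ))) j < a i := by
  intro i j
  refine Fin.addCases (fun j => ?_) (fun j => ?_) j
  · rw [Fin.append_left]; exact h i j
  · rw [Fin.append_right]; exact ha i

/-- the condition on parameters -/
def Cnd {n : ℕ} (a b : Fin n → ℤ) : Prop :=
  Function.Injective a ∧ (∀ i, 0 < a i) ∧ (∀ j, 0 < b j) ∧ (∀ i j, b j < a i)

lemma geo_list (hLVL : S_LVL) (hORB : S_ORB) (hFC : S_FC) (n : ℕ)
    (l : List (MvPolynomial (Fin n) ℕ × ℕ × (Fin n → Option (Fin (n + n)))))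
    (hl : ∀ x ∈ l, PInj x.2.2) :
    ∃ (K : ℕ) (l' : List (MvPolynomial (Fin n) ℕ × List (Fin n × Fin n) ×
      (Fin n → Option (Fin (n + n))))), 0 < K ∧ (∀ x ∈ l', Adj x.2.1 ∧ PInj x.2.2 ∧ Dec x.2.2) ∧
      ∀ a b : Fin n → ℤ, Cnd a b →
        (∀ x ∈ l, Has x.2.1 (wt Wm (par a b)) (van (Orb x.2.2))) →
        (K : ℝ) * (l.map (fun x => (eval₂ (Nat.castRingHom ℝ) (fun j => (b j : ℝ)) x.1) *
          cl x.2.1 (wt Wm (par a b)) (van (Orb x.2.2)))).sum = (l'.map (fun x =>
        (eval₂ (Nat.castRingHom ℝ) (fun j => (b j : ℝ)) x.1) *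
          dw x.2.1 (fun a' => ∏ s ∈ Zb x.2.2,
            ((a' s.1 : ℝ) - (Fin.append b (fun _ => (0 : ℤ)) s.2 : ℤ))) a)).sum := by
  induction l with
  | nil => exact ⟨1, [], one_pos, by simp, by intro a b _ _; simp⟩
  | cons x t ih =>
    obtain ⟨K, l', hK, hl', h⟩ := ih (fun y hy => hl y (List.mem_cons_of_mem _ hy))
    obtain ⟨kc, M, wd, c0, hM, hadj, hc0, hdec, hfc⟩ := hFC n (n + n) x.2.2 (hl x (by simp))
    by_cases hk : x.2.1 = kc
    · refine ⟨K * M, (C K * x.1, wd, c0) :: l'.map (fun y => (C M * y.1, y.2.1, y.2.2)),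
        Nat.mul_pos hK hM, ?_, ?_⟩
      · intro y hy
        rcases List.mem_cons.1 hy with rfl | hy
        · exact ⟨hadj, hc0, hdec⟩
        · obtain ⟨z, hz, rfl⟩ := List.mem_map.1 hy
          exact hl' z hz
      · intro a b hab hhas
        have h1 := h a b hab (fun y hy => hhas y (List.mem_cons_of_mem _ hy))
        obtain ⟨-, -, h2⟩ := hfc a (Fin.append b (fun _ => (0 : ℤ))) hab.1
          (append_lt a b hab.2.1 hab.2.2.2)
        have h3 : (M : ℝ) * cl x.2.1 (wt Wm (par a b)) (van (Orb x.2.2)) =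
            dw wd (fun a' => ∏ s ∈ Zb c0,
              ((a' s.1 : ℝ) - (Fin.append b (fun _ => (0 : ℤ)) s.2 : ℤ))) a := by
          rw [hk]; exact h2
        simp only [List.map_cons, List.sum_cons, List.map_map, eval₂_mul, eval₂_C,
          Function.comp_def, Nat.cast_mul]
        have h4 : (l'.map (fun y => (Nat.castRingHom ℝ) M *
              eval₂ (Nat.castRingHom ℝ) (fun j => (b j : ℝ)) y.1 *
              dw y.2.1 (fun a' => ∏ s ∈ Zb y.2.2,
                ((a' s.1 : ℝ) - (Fin.append b (fun _ => (0 : ℤ)) s.2 : ℤ))) a)).sum =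
            (M : ℝ) * (l'.map (fun y =>
              eval₂ (Nat.castRingHom ℝ) (fun j => (b j : ℝ)) y.1 *
              dw y.2.1 (fun a' => ∏ s ∈ Zb y.2.2,
                ((a' s.1 : ℝ) - (Fin.append b (fun _ => (0 : ℤ)) s.2 : ℤ))) a)).sum := by
          rw [← List.sum_map_mul_left]
          congr 1
          apply List.map_congr_left
          intro y _
          simp only [Nat.coe_castRingHom]
          ring
        rw [h4, ← h1, ← h3]
        simp only [Nat.coe_castRingHom]
        ring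
    · refine ⟨K, l', hK, hl', ?_⟩
      intro a b hab hhas
      have h1 := h a b hab (fun y hy => hhas y (List.mem_cons_of_mem _ hy))
      obtain ⟨h2, h3, -⟩ := hfc a (Fin.append b (fun _ => (0 : ℤ))) hab.1
          (append_lt a b hab.2.1 hab.2.2.2)
      obtain ⟨hpr, htg, -⟩ := hORB n (n + n) x.2.2 (hl x (by simp))
      obtain ⟨h4, -⟩ := hLVL _ _ Wm (par a b)
        (pos_par a _ (append_lt a b hab.2.1 hab.2.2.2)) (van (Orb x.2.2)) htg
      obtain ⟨k0, h5, h6, h7, h8⟩ := h4 hpr.ne_top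
      have h9 : kc = k0 := by
        rcases lt_trichotomy kc k0 with h | h | h
        · have := (h7 kc h).2
          exact absurd this h3.ne'
        · exact h
        · exact absurd h2 (h8 kc h)
      have h10 := hhas x (by simp)
      have h11 : cl x.2.1 (wt Wm (par a b)) (van (Orb x.2.2)) = 0 := by
        rcases lt_trichotomy x.2.1 k0 with h | h | h
        · exact (h7 _ h).2
        · exact absurd (h.trans h9.symm) hk
        · exact absurd h10 (h8 _ h)
      simp only [List.map_cons, List.sum_cons]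
      rw [h11, mul_zero, zero_add, h1]

theorem t_GEO (hLVL : S_LVL) (hORB : S_ORB) (hFC : S_FC) (hFUV : S_FUV) (hCHAIN : S_CHAIN) :
    S_GEO := by
  intro n Sn hSn u v
  obtain ⟨hpr, htg, hr, hc1, hc2, k, M, hM, hcl⟩ := hFUV n Sn hSn u v
  obtain ⟨l, hl, hch⟩ := hCHAIN n _ hpr htg hr hc1 hc2 k
  obtain ⟨K, l', hK, hl', h⟩ := geo_list hLVL hORB hFC n l hl
  refine ⟨l'.map (fun y => (C M * y.1, y.2.1, y.2.2)), K, hK, ?_, ?_⟩
  · intro y hy
    obtain ⟨z, hz, rfl⟩ := List.mem_map.1 hy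
    exact hl' z hz
  · intro a b hai ha hb hab
    obtain ⟨h1, h2⟩ := hcl a b hai ha hab
    obtain ⟨h3, h4⟩ := hch a b ha hb hab h1
    have h5 := h a b ⟨hai, ha, hb, hab⟩ h3
    simp only [List.map_map, Function.comp_def, eval₂_mul, eval₂_C]
    have h6 : (l'.map (fun y => (Nat.castRingHom ℝ) M *
              eval₂ (Nat.castRingHom ℝ) (fun j => (b j : ℝ)) y.1 *
              dw y.2.1 (fun a' => ∏ s ∈ Zb y.2.2,
                ((a' s.1 : ℝ) - (Fin.append b (fun _ => (0 : ℤ)) s.2 : ℤ))) a)).sum =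
            (M : ℝ) * (l'.map (fun y =>
              eval₂ (Nat.castRingHom ℝ) (fun j => (b j : ℝ)) y.1 *
              dw y.2.1 (fun a' => ∏ s ∈ Zb y.2.2,
                ((a' s.1 : ℝ) - (Fin.append b (fun _ => (0 : ℤ)) s.2 : ℤ))) a)).sum := by
          rw [← List.sum_map_mul_left]
          congr 1
          apply List.map_congr_left
          intro y _
          simp only [Nat.coe_castRingHom]
          ring
    rw [h6, ← h5, ← h4, ← h2]
    ring

end Pool.Agent.KIR
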