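import Pool.Agent.KIR.S1a.Final
import Pool.Agent.KIR.S1b.DEC
import Pool.Agent.KIR.S1b.MIN
import Pool.Agent.KIR.S2.Final
import Pool.Agent.KIR.S3.Final
import Pool.Agent.KIR.S4.Class
import Pool.Agent.KIR.FUV
/-!
# KIR: the geometric identity from section S4b
-/
set_option autoImplicit false
namespace Pool.Agent.KIR

theorem row_final : S_ROW := t_ROW S2.s_DEG S2.s_STAR

theorem chain_final : S_CHAIN :=
  t_CHAIN t_LVL t_STRICT (t_DEC t_LVL t_STRICT) t_MIN S2.s_DEG S2.s_POLY S2.s_NRM t_CLASS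

theorem geo_of (hORB : S_ORB) (hSTEP : S_STEP) (hTOP : S_TOP) (hORB2 : S_ORB2)
    (hSTEP2 : S_STEP2) (hTOP2 : S_TOP2) : S_GEO :=
  t_GEO t_LVL hORB (t_FC t_LVL t_STRICT row_final hORB hSTEP hTOP)
    (t_FUV t_LVL t_STRICT row_final hORB2 hSTEP2 hTOP2) chain_final

end Pool.Agent.KIR
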